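import Pool.Agent.Lib.TWRL.Curve

/-! The group step in final form: subgroups of k x k and of (k x k) x k. -/

open Polynomial

namespace TWRL

set_option linter.unusedSectionVars false

section AUX

variable {k : Type*} [Field k]

/-- value of a polynomial in two variables. -/
noncomputable def ev2 (s c : k) (P : k[X][X]) : k := (P.map (evalRingHom s)).eval c

/-- value of a polynomial in three variables. -/
noncomputable def ev3 (s c e : k) (P : k[X][X][X]) : k :=
  (P.map ((evalRingHom c).comp (mapRingHom (evalRingHom s)))).eval e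

theorem ev2_eq (s c : k) (P : k[X][X]) : (base1 k).evE s c P = ev2 s c P := by
  unfold Base.evE ev2
  congr 2

/-- polynomial in each variable and along lines. -/
structure Bi (δ : k → k → k) : Prop where
  l : ∀ y, ∃ F : k[X], ∀ x, δ x y = F.eval x
  r : ∀ x, ∃ F : k[X], ∀ y, δ x y = F.eval y
  d : ∀ x y, ∃ F : k[X], ∀ t, δ (x * t) (y * t) = F.eval t

theorem Bi.add {δ ε : k → k → k} (h : Bi δ) (h' : Bi ε) : Bi (fun x y => δ x y + ε x y) where
  l y := by
    obtain ⟨F, hF⟩ := h.l y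
    obtain ⟨G, hG⟩ := h'.l y
    exact ⟨F + G, fun x => by rw [hF, hG, eval_add]⟩
  r y := by
    obtain ⟨F, hF⟩ := h.r y
    obtain ⟨G, hG⟩ := h'.r y
    exact ⟨F + G, fun x => by rw [hF, hG, eval_add]⟩
  d x y := by
    obtain ⟨F, hF⟩ := h.d x y
    obtain ⟨G, hG⟩ := h'.d x y
    exact ⟨F + G, fun t => by rw [hF, hG, eval_add]⟩

theorem Bi.mono (a : k) (i j : ℕ) : Bi (fun x y => a * x ^ i * y ^ j) where
  l y := ⟨C (a * y ^ j) * X ^ i, fun x => by simp; ring⟩
  r x := ⟨C (a * x ^ i) * X ^ j, fun y => by simp⟩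
  d x y := ⟨C (a * x ^ i * y ^ j) * X ^ (i + j), fun t => by
    simp only [eval_mul, eval_C, eval_pow, eval_X, mul_pow, pow_add]; ring⟩

theorem Bi.sum {ι : Type*} (I : Finset ι) (f : ι → k → k → k) (h : ∀ i ∈ I, Bi (f i)) :
    Bi (fun x y => ∑ i ∈ I, f i x y) := by
  classical
  induction I using Finset.induction_on with
  | empty => exact ⟨fun _ => ⟨0, fun _ => by simp⟩, fun _ => ⟨0, fun _ => by simp⟩,
      fun _ _ => ⟨0, fun _ => by simp⟩⟩
  | insert i I hi ih =>
    have h1 := (h i (Finset.mem_insert_self _ _)).add (ih fun j hj => h j (Finset.mem_insert_of_mem hj))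
    simpa [Finset.sum_insert hi] using h1

/-- linear forms separate a submodule. -/
theorem exists_form {V : Type*} [AddCommGroup V] [Module k V] (N : Submodule k V) {v : V} (hv : v ∉ N) :
    ∃ f : V →ₗ[k] k, (∀ w ∈ N, f w = 0) ∧ f v ≠ 0 := by
  obtain ⟨f, h1, h2⟩ := Submodule.exists_le_ker_of_notMem hv
  exact ⟨f, fun w hw => h2 hw, h1⟩

/-- dual weights for independent functions. -/
theorem weights {Z ι : Type*} [Fintype ι] [DecidableEq ι] (f : ι → Z → k) (hf : LinearIndependent k f)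
    (i0 : ι) : ∃ (T : Finset Z) (w : Z → k), ∀ i, ∑ x ∈ T, w x * f i x = if i = i0 then 1 else 0 := by
  classical
  have hspan : (Submodule.span k (Set.range fun x : Z => (fun i => f i x : ι → k))) = ⊤ := by
    by_contra hne
    obtain ⟨v, -, hv⟩ := SetLike.exists_of_lt (lt_top_iff_ne_top.2 hne)
    obtain ⟨φ, h1, h2⟩ := exists_form _ hv
    have h3 : ∀ x, ∑ i, φ (Pi.single i 1) * f i x = 0 := by
      intro x
      have := h1 (fun i => f i x) (Submodule.subset_span ⟨x, rfl⟩)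
      have e : (fun i => f i x : ι → k) = ∑ i, f i x • (Pi.single i (1 : k) : ι → k) := by
        ext j
        simp [Finset.sum_apply, Pi.single_apply]
      rw [e, map_sum] at this
      rw [← this]
      refine Finset.sum_congr rfl fun i _ => ?_
      rw [map_smul, smul_eq_mul, mul_comm]
    have h4 : ∀ i, φ (Pi.single i 1) = 0 := by
      refine Fintype.linearIndependent_iff.1 hf (fun i => φ (Pi.single i 1)) ?_
      funext x
      have := h3 x
      simpa [Finset.sum_apply] using this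
    apply h2
    have e : v = ∑ i, v i • (Pi.single i (1 : k) : ι → k) := by
      ext j
      simp [Finset.sum_apply, Pi.single_apply]
    rw [e, map_sum]
    exact Finset.sum_eq_zero fun i _ => by rw [map_smul, h4, smul_zero]
  have hmem : (Pi.single i0 (1 : k) : ι → k) ∈
      Submodule.span k (Set.range fun x : Z => (fun i => f i x : ι → k)) := by
    rw [hspan]; trivial
  obtain ⟨c, hc⟩ := (Finsupp.mem_span_range_iff_exists_finsupp).1 hmem
  refine ⟨c.support, c, fun i => ?_⟩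
  have := congrFun hc i
  rw [Finsupp.sum, Finset.sum_apply] at this
  simp only [Pi.smul_apply, smul_eq_mul, Pi.single_apply] at this
  exact this

end AUX

section ONE

variable {k : Type*} [Field k] [IsAlgClosed k] (p : ℕ) [hp : Fact p.Prime] [CharP k p]

/-- a subset closed under the law of a one step extension of the additive group. -/
structure G1 (S : Set (k × k)) (δ : k → k → k) : Prop where
  bi : Bi δ
  d0 : ∀ y, δ 0 y = 0
  z : ((0 : k), (0 : k)) ∈ S
  mul : ∀ x ∈ S, ∀ y ∈ S, (x.1 + y.1, x.2 + y.2 + δ x.1 y.1) ∈ S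
  inf : (Prod.fst '' S).Infinite

/-- the chosen polynomials. -/
noncomputable def G1.D {S : Set (k × k)} {δ : k → k → k} (h : G1 S δ) (y : k) : k[X] := (h.bi.l y).choose

theorem G1.D_eval {S : Set (k × k)} {δ : k → k → k} (h : G1 S δ) (x y : k) : (h.D y).eval x = δ x y :=
  ((h.bi.l y).choose_spec x).symm

theorem G1.hd0 {S : Set (k × k)} {δ : k → k → k} (h : G1 S δ) (y : k) :
    (base1 k).ev (base1 k).o (h.D y) = 0 := by
  change aeval (0 : k) (h.D y) = 0
  rw [Polynomial.coe_aeval_eq_eval, h.D_eval, h.d0]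

theorem G1.ext {S : Set (k × k)} {δ : k → k → k} (h : G1 S δ) : Ext (base1 k) S h.D where
  z := h.z
  d0 := h.hd0
  mul x hx y hy := by
    have e : (base1 k).ev x.1 (h.D y.1) = δ x.1 y.1 := by
      change aeval x.1 (h.D y.1) = _
      rw [Polynomial.coe_aeval_eq_eval, h.D_eval]
    rw [e]
    exact h.mul x hx y hy
  dense f hf := by
    classical
    by_contra h0
    refine h.inf ((f.roots.toFinset.finite_toSet).subset ?_)
    rintro _ ⟨x, hx, rfl⟩
    have := hf x hx
    change aeval x.1 f = 0 at this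
    rw [Polynomial.coe_aeval_eq_eval] at this
    simpa [Polynomial.mem_roots h0] using this

theorem G1.line {S : Set (k × k)} {δ : k → k → k} (h : G1 S δ) : Line (base1 k) h.D id where
  z := rfl
  add _ _ := rfl
  pol f := ⟨f, fun s => by
    change aeval s f = _
    rw [Polynomial.coe_aeval_eq_eval]⟩
  left s f := ⟨f.comp (X + C s), fun b' => by
    change aeval (s + b') f = aeval b' _
    rw [Polynomial.coe_aeval_eq_eval, Polynomial.coe_aeval_eq_eval]
    simp [add_comm]⟩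
  dr s := by
    obtain ⟨E, hE⟩ := h.bi.r s
    refine ⟨E, fun b' => ?_⟩
    change aeval s (h.D b') = aeval b' E
    rw [Polynomial.coe_aeval_eq_eval, Polynomial.coe_aeval_eq_eval, h.D_eval, hE]
  dd x y := by
    obtain ⟨F, hF⟩ := h.bi.d x y
    refine ⟨F, fun t => ?_⟩
    change aeval (x * t) (h.D (y * t)) = _
    rw [Polynomial.coe_aeval_eq_eval, h.D_eval, hF]

theorem FAdd.surj {R : k[X]} (hR : FAdd R) (hR0 : R ≠ 0) (s : k) : ∃ t, R.eval t = s := by
  have hdeg : 0 < R.degree := by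
    by_contra hle
    have e := Polynomial.eq_C_of_degree_le_zero (not_lt.1 hle)
    have h0 := hR.eval_zero
    rw [e] at h0
    simp only [Polynomial.eval_C] at h0
    rw [e, h0, map_zero] at hR0
    exact hR0 rfl
  obtain ⟨t, ht⟩ := IsAlgClosed.exists_root (R - C s) (by
    rw [Polynomial.degree_sub_C hdeg]; exact hdeg.ne')
  refine ⟨t, ?_⟩
  rw [Polynomial.IsRoot.def, Polynomial.eval_sub, Polynomial.eval_C] at ht
  exact sub_eq_zero.1 ht

include p in
/-- **Group step, one variable.** Either no polynomial vanishes on S, or there is a curve t -> (R t, c t) with R, c in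
k[t], R additive, on which everything vanishes that vanishes on S; it passes through infinitely many points of S. -/
theorem G1.dich {S : Set (k × k)} {δ : k → k → k} (h : G1 S δ) :
    (∀ P : k[X][X], (∀ x ∈ S, ev2 x.1 x.2 P = 0) → P = 0) ∨
    ∃ R c : k[X], FAdd R ∧ R ≠ 0 ∧ c.eval 0 = 0 ∧
      (∀ P : k[X][X], (∀ x ∈ S, ev2 x.1 x.2 P = 0) → ∀ t, ev2 (R.eval t) (c.eval t) P = 0) ∧
      (∀ t t', c.eval (t + t') = c.eval t + c.eval t' + δ (R.eval t) (R.eval t')) ∧
      {t | (R.eval t, c.eval t) ∈ S}.Infinite ∧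
      (∀ t t', (R.eval t, c.eval t) ∈ S → (R.eval t', c.eval t') ∈ S →
        (R.eval (t + t'), c.eval (t + t')) ∈ S) ∧
      ∃ B hh : k[X], FAdd B ∧ hh.eval 0 = 0 ∧ c = B + hh.comp R ∧
        ∀ s s', δ s s' = hh.eval (s + s') - hh.eval s - hh.eval s' := by
  rcases rel h.ext p with h1 | ⟨Q, g, hQa, hm, hd1, hg0, hv⟩
  · exact Or.inl fun P hP => h1 P fun x hx => by rw [ev2_eq]; exact hP x hx
  right
  obtain ⟨R, c, hR, hR0, hc0, hP, hlaw, hfin, B', hh, hB', hh0, hce, hdel⟩ :=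
    curve p h.ext h.line hQa hm hv
  have hlaw' : ∀ t t', c.eval (t + t') = c.eval t + c.eval t' + δ (R.eval t) (R.eval t') := by
    intro t t'
    have := hlaw t t'
    have e : (base1 k).ev (id (R.eval t)) (h.D (id (R.eval t'))) = δ (R.eval t) (R.eval t') := by
      change aeval (R.eval t) (h.D (R.eval t')) = _
      rw [Polynomial.coe_aeval_eq_eval, h.D_eval]
    rw [e] at this
    exact this
  have hcl : ∀ t t', (R.eval t, c.eval t) ∈ S → (R.eval t', c.eval t') ∈ S →
      (R.eval (t + t'), c.eval (t + t')) ∈ S := by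
    intro t t' ht ht'
    have := h.mul _ ht _ ht'
    rw [hR, hlaw']
    exact this
  refine ⟨R, c, hR, hR0, hc0, ?_, hlaw', ?_, hcl, B', hh, hB', hh0, hce, fun s s' => ?_⟩
  · intro P hP' t
    have := hP P (fun x hx => by rw [ev2_eq]; exact hP' x hx) t
    rw [ev2_eq] at this
    exact this
  · -- pigeonhole over the roots of Q
    classical
    have hmulu : ∀ t u t' u', (R.eval t, c.eval t + u) ∈ S → (R.eval t', c.eval t' + u') ∈ S →
        (R.eval (t + t'), c.eval (t + t') + (u + u')) ∈ S := by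
      intro t u t' u' ht ht'
      have := h.mul _ ht _ ht'
      rw [hR, hlaw']
      convert this using 2
      ring
    have hpow : ∀ t u, (R.eval t, c.eval t + u) ∈ S → ∀ n : ℕ,
        (R.eval ((n : k) * t), c.eval ((n : k) * t) + (n : k) * u) ∈ S := by
      intro t u ht n
      induction n with
      | zero =>
        have := h.z
        simpa [hR.eval_zero, hc0] using this
      | succ n ih =>
        have := hmulu _ _ _ _ ih ht
        push_cast
        rw [add_mul, one_mul, add_mul, one_mul]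
        exact this
    have hneg : ∀ t u, (R.eval t, c.eval t + u) ∈ S → (R.eval (-t), c.eval (-t) + -u) ∈ S := by
      intro t u ht
      have := hpow t u ht (p - 1)
      have e : ((p - 1 : ℕ) : k) = -1 := by
        rw [Nat.cast_sub hp.out.one_lt.le, CharP.cast_eq_zero]
        simp
      rw [e] at this
      simpa using this
    have : Infinite (Prod.fst '' S) := h.inf.to_subtype
    have hch : ∀ s : (Prod.fst '' S), ∃ (t u : k), R.eval t = s.1 ∧ (R.eval t, c.eval t + u) ∈ S ∧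
        Q.eval u = 0 := by
      rintro ⟨_, x, hx, rfl⟩
      obtain ⟨t, ht⟩ := hR.surj hR0 x.1
      refine ⟨t, x.2 - c.eval t, ht, ?_, ?_⟩
      · rw [add_sub_cancel, ht]; exact hx
      · exact hfin x.1 x.2 hx t ht
    choose tt uu h1 h2 h3 using hch
    have hQ0 : Q ≠ 0 := hm.ne_zero
    let F : (Prod.fst '' S) → (Q.roots.toFinset : Set k) := fun s => ⟨uu s, by
      simpa [Polynomial.mem_roots hQ0] using h3 s⟩
    obtain ⟨u0, hu0⟩ := Finite.exists_infinite_fiber F
    obtain ⟨s0⟩ : Nonempty (F ⁻¹' {u0}) := inferInstance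
    refine Set.infinite_of_injective_forall_mem (α := F ⁻¹' {u0})
      (f := fun s => tt s.1 + -(tt s0.1)) ?_ ?_
    · intro s s' hss
      have e : tt s.1 = tt s'.1 := add_right_cancel hss
      have e2 := congrArg (fun t => R.eval t) e
      simp only [h1] at e2
      exact Subtype.ext (Subtype.ext e2)
    · intro s
      have e1 : uu s.1 = u0.1 := congrArg Subtype.val s.2
      have e2 : uu s0.1 = u0.1 := congrArg Subtype.val s0.2
      have := hmulu _ _ _ _ (h2 s.1) (hneg _ _ (h2 s0.1))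
      rw [e1, e2, add_neg_cancel, add_zero] at this
      exact this
  · have := hdel s s'
    have e : (base1 k).ev (id s) (h.D (id s')) = δ s s' := by
      change aeval s (h.D s') = _
      rw [Polynomial.coe_aeval_eq_eval, h.D_eval]
    rw [e] at this
    exact this

end ONE

section TWO

variable {k : Type*} [Field k] [IsAlgClosed k] (p : ℕ) [hp : Fact p.Prime] [CharP k p]

/-- a subset closed under the law of a two step extension. -/
structure G2 (S : Set ((k × k) × k)) (δ : k → k → k) (δ3 : k × k → k × k → k) : Prop where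
  bi : Bi δ
  d0 : ∀ y, δ 0 y = 0
  l3 : ∀ b', ∃ F : k[X][X], ∀ s c, δ3 (s, c) b' = ev2 s c F
  r3 : ∀ c, ∃ E : k[X][X], ∀ s' c', δ3 (0, c) (s', c') = ev2 s' c' E
  d3 : ∀ x y, ∃ F : k[X], ∀ t, δ3 (0, x * t) (0, y * t) = F.eval t
  z3 : ∀ b', δ3 (0, 0) b' = 0
  z : (((0 : k), (0 : k)), (0 : k)) ∈ S
  mul : ∀ x ∈ S, ∀ y ∈ S,
    ((x.1.1 + y.1.1, x.1.2 + y.1.2 + δ x.1.1 y.1.1), x.2 + y.2 + δ3 x.1 y.1) ∈ S
  dense : ∀ P : k[X][X], (∀ x ∈ S, ev2 x.1.1 x.1.2 P = 0) → P = 0

variable {S : Set ((k × k) × k)} {δ : k → k → k} {δ3 : k × k → k × k → k}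

noncomputable def G2.D (h : G2 S δ δ3) (y : k) : k[X] := (h.bi.l y).choose

theorem G2.D_eval (h : G2 S δ δ3) (x y : k) : (h.D y).eval x = δ x y :=
  ((h.bi.l y).choose_spec x).symm

theorem G2.hd0 (h : G2 S δ δ3) (y : k) : (base1 k).ev (base1 k).o (h.D y) = 0 := by
  change aeval (0 : k) (h.D y) = 0
  rw [Polynomial.coe_aeval_eq_eval, h.D_eval, h.d0]

/-- the base. -/
noncomputable def G2.B (h : G2 S δ δ3) : Base k k[X][X] (k × k) := (base1 k).ext h.D h.hd0

theorem G2.B_ev (h : G2 S δ δ3) (x : k × k) (P : k[X][X]) : h.B.ev x P = ev2 x.1 x.2 P :=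
  ev2_eq x.1 x.2 P

theorem G2.B_mul (h : G2 S δ δ3) (x y : k × k) : h.B.mul x y = (x.1 + y.1, x.2 + y.2 + δ x.1 y.1) := by
  refine Prod.ext rfl ?_
  change x.2 + y.2 + aeval x.1 (h.D y.1) = _
  rw [Polynomial.coe_aeval_eq_eval, h.D_eval]

theorem G2.B_evE (h : G2 S δ δ3) (x : k × k) (e : k) (P : k[X][X][X]) :
    h.B.evE x e P = ev3 x.1 x.2 e P := by
  unfold Base.evE ev3
  congr 2

noncomputable def G2.D3 (h : G2 S δ δ3) (y : k × k) : k[X][X] := (h.l3 y).choose

theorem G2.D3_eval (h : G2 S δ δ3) (x y : k × k) : h.B.ev x (h.D3 y) = δ3 x y := by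
  rw [h.B_ev]
  exact ((h.l3 y).choose_spec x.1 x.2).symm

theorem G2.ext (h : G2 S δ δ3) : Ext h.B S h.D3 where
  z := h.z
  d0 b := by rw [h.D3_eval]; exact h.z3 b
  mul x hx y hy := by
    rw [h.D3_eval, h.B_mul]
    exact h.mul x hx y hy
  dense f hf := h.dense f fun x hx => by rw [← h.B_ev]; exact hf x hx

theorem G2.line (h : G2 S δ δ3) : Line h.B h.D3 (fun c => ((0 : k), c)) where
  z := rfl
  add s s' := by
    rw [h.B_mul]
    simp [h.d0]
  pol f := ⟨f.map (evalRingHom 0), fun s => by rw [h.B_ev]; rfl⟩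
  left s f := ⟨f.comp (X + C (C s)), fun b' => by
    rw [h.B_ev, h.B_mul, h.B_ev]
    unfold ev2
    simp [Polynomial.map_comp, h.d0, add_comm]⟩
  dr s := by
    obtain ⟨E, hE⟩ := h.r3 s
    refine ⟨E, fun b' => ?_⟩
    rw [h.D3_eval, h.B_ev, ← hE]
  dd x y := by
    obtain ⟨F, hF⟩ := h.d3 x y
    exact ⟨F, fun t => by rw [h.D3_eval]; exact hF t⟩

include p in
/-- **Group step, two variables below.** -/
theorem G2.dich (h : G2 S δ δ3) :
    (∀ P : k[X][X][X], (∀ x ∈ S, ev3 x.1.1 x.1.2 x.2 P = 0) → P = 0) ∨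
    ∃ R c : k[X], FAdd R ∧ R ≠ 0 ∧ c.eval 0 = 0 ∧
      (∀ P : k[X][X][X], (∀ x ∈ S, ev3 x.1.1 x.1.2 x.2 P = 0) → ∀ t, ev3 0 (R.eval t) (c.eval t) P = 0) ∧
      (∀ t t', c.eval (t + t') = c.eval t + c.eval t' + δ3 (0, R.eval t) (0, R.eval t')) ∧
      ∃ B hh : k[X], FAdd B ∧ hh.eval 0 = 0 ∧ c = B + hh.comp R ∧
        ∀ s s', δ3 (0, s) (0, s') = hh.eval (s + s') - hh.eval s - hh.eval s' := by
  rcases rel h.ext p with h1 | ⟨Q, g, hQa, hm, hd1, hg0, hv⟩
  · exact Or.inl fun P hP => h1 P fun x hx => by rw [h.B_evE]; exact hP x hx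
  right
  obtain ⟨R, c, hR, hR0, hc0, hP, hlaw, -, B', hh, hB', hh0, hce, hdel⟩ :=
    curve p h.ext h.line hQa hm hv
  refine ⟨R, c, hR, hR0, hc0, ?_, ?_, B', hh, hB', hh0, hce, fun s s' => ?_⟩
  · intro P hP' t
    have := hP P (fun x hx => by rw [h.B_evE]; exact hP' x hx) t
    rw [h.B_evE] at this
    exact this
  · intro t t'
    have := hlaw t t'
    rw [h.D3_eval] at this
    exact this
  · have := hdel s s'
    rw [h.D3_eval] at this
    exact this

end TWO

section VEC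

variable {k V : Type*} [Field k] [AddCommGroup V] [Module k V] (N : Submodule k V)

/-- the two variable polynomial of a linear form. -/
noncomputable def pol2 (I : Finset (ℕ × ℕ)) (b : ℕ × ℕ → k) : k[X][X] :=
  ∑ i ∈ I, C (C (b i) * X ^ i.1) * X ^ i.2

theorem ev2_pol2 (I : Finset (ℕ × ℕ)) (b : ℕ × ℕ → k) (s c : k) :
    ev2 s c (pol2 I b) = ∑ i ∈ I, b i * (s ^ i.1 * c ^ i.2) := by
  unfold ev2 pol2
  rw [Polynomial.map_sum, Polynomial.eval_finsetSum]
  refine Finset.sum_congr rfl fun i _ => ?_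
  simp [mul_assoc]

theorem coeff_pol2 (I : Finset (ℕ × ℕ)) (b : ℕ × ℕ → k) {i : ℕ × ℕ} (hi : i ∈ I) :
    ((pol2 I b).coeff i.2).coeff i.1 = b i := by
  classical
  unfold pol2
  rw [Polynomial.finsetSum_coeff, Polynomial.finsetSum_coeff, Finset.sum_eq_single_of_mem i hi]
  · rw [Polynomial.coeff_C_mul_X_pow, if_pos rfl, Polynomial.coeff_C_mul_X_pow, if_pos rfl]
  · intro j _ hji
    rw [Polynomial.coeff_C_mul_X_pow]
    split_ifs with h2
    · rw [Polynomial.coeff_C_mul_X_pow, if_neg]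
      intro h1
      exact hji (Prod.ext h1.symm h2.symm)
    · simp

theorem vec_dense2 {S : Set (k × k)} (hS : ∀ P : k[X][X], (∀ x ∈ S, ev2 x.1 x.2 P = 0) → P = 0)
    (I : Finset (ℕ × ℕ)) (a : ℕ × ℕ → V) (h : ∀ x ∈ S, ∑ i ∈ I, (x.1 ^ i.1 * x.2 ^ i.2) • a i ∈ N) :
    ∀ i ∈ I, a i ∈ N := by
  intro i hi
  by_contra hne
  obtain ⟨f, h1, h2⟩ := exists_form N hne
  have h3 := hS (pol2 I fun j => f (a j)) (fun x hx => by
    rw [ev2_pol2]
    have := h1 _ (h x hx)
    rw [map_sum] at this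
    rw [← this]
    refine Finset.sum_congr rfl fun j _ => ?_
    rw [map_smul, smul_eq_mul, mul_comm])
  have h4 := coeff_pol2 I (fun j => f (a j)) hi
  rw [h3] at h4
  exact h2 (by simpa using h4.symm)

theorem vec_curve2 [Infinite k] {S : Set (k × k)} {R c : k[X]}
    (hS : ∀ P : k[X][X], (∀ x ∈ S, ev2 x.1 x.2 P = 0) → ∀ t, ev2 (R.eval t) (c.eval t) P = 0)
    (I : Finset (ℕ × ℕ)) (a : ℕ × ℕ → V) (h : ∀ x ∈ S, ∑ i ∈ I, (x.1 ^ i.1 * x.2 ^ i.2) • a i ∈ N)
    (n : ℕ) : ∑ i ∈ I, (R ^ i.1 * c ^ i.2).coeff n • a i ∈ N := by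
  by_contra hne
  obtain ⟨f, h1, h2⟩ := exists_form N hne
  have h3 := hS (pol2 I fun j => f (a j)) (fun x hx => by
    rw [ev2_pol2]
    have := h1 _ (h x hx)
    rw [map_sum] at this
    rw [← this]
    refine Finset.sum_congr rfl fun j _ => ?_
    rw [map_smul, smul_eq_mul, mul_comm])
  have h4 : ∑ i ∈ I, C (f (a i)) * (R ^ i.1 * c ^ i.2) = 0 := by
    refine Polynomial.funext fun t => ?_
    have := h3 t
    rw [ev2_pol2] at this
    rw [Polynomial.eval_finsetSum, Polynomial.eval_zero, ← this]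
    refine Finset.sum_congr rfl fun j _ => ?_
    simp
  have h5 := congrArg (fun q => q.coeff n) h4
  simp only [Polynomial.finsetSum_coeff, Polynomial.coeff_C_mul, Polynomial.coeff_zero] at h5
  apply h2
  rw [map_sum, ← h5]
  refine Finset.sum_congr rfl fun j _ => ?_
  rw [map_smul, smul_eq_mul, mul_comm]

/-- the three variable polynomial of a linear form. -/
noncomputable def pol3 (I : Finset (ℕ × ℕ × ℕ)) (b : ℕ × ℕ × ℕ → k) : k[X][X][X] :=
  ∑ i ∈ I, C (C (C (b i) * X ^ i.1) * X ^ i.2.1) * X ^ i.2.2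

theorem ev3_pol3 (I : Finset (ℕ × ℕ × ℕ)) (b : ℕ × ℕ × ℕ → k) (s c e : k) :
    ev3 s c e (pol3 I b) = ∑ i ∈ I, b i * (s ^ i.1 * c ^ i.2.1 * e ^ i.2.2) := by
  unfold ev3 pol3
  rw [Polynomial.map_sum, Polynomial.eval_finsetSum]
  refine Finset.sum_congr rfl fun i _ => ?_
  simp [mul_assoc]

theorem coeff_pol3 (I : Finset (ℕ × ℕ × ℕ)) (b : ℕ × ℕ × ℕ → k) {i : ℕ × ℕ × ℕ} (hi : i ∈ I) :
    (((pol3 I b).coeff i.2.2).coeff i.2.1).coeff i.1 = b i := by
  classical
  unfold pol3
  rw [Polynomial.finsetSum_coeff, Polynomial.finsetSum_coeff, Polynomial.finsetSum_coeff,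
    Finset.sum_eq_single_of_mem i hi]
  · rw [Polynomial.coeff_C_mul_X_pow, if_pos rfl, Polynomial.coeff_C_mul_X_pow, if_pos rfl,
      Polynomial.coeff_C_mul_X_pow, if_pos rfl]
  · intro j _ hji
    rw [Polynomial.coeff_C_mul_X_pow]
    split_ifs with h3
    · rw [Polynomial.coeff_C_mul_X_pow]
      split_ifs with h2
      · rw [Polynomial.coeff_C_mul_X_pow, if_neg]
        intro h1
        exact hji (Prod.ext h1.symm (Prod.ext h2.symm h3.symm))
      · simp
    · simp

theorem vec_dense3 {S : Set ((k × k) × k)}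
    (hS : ∀ P : k[X][X][X], (∀ x ∈ S, ev3 x.1.1 x.1.2 x.2 P = 0) → P = 0)
    (I : Finset (ℕ × ℕ × ℕ)) (a : ℕ × ℕ × ℕ → V)
    (h : ∀ x ∈ S, ∑ i ∈ I, (x.1.1 ^ i.1 * x.1.2 ^ i.2.1 * x.2 ^ i.2.2) • a i ∈ N) :
    ∀ i ∈ I, a i ∈ N := by
  intro i hi
  by_contra hne
  obtain ⟨f, h1, h2⟩ := exists_form N hne
  have h3 := hS (pol3 I fun j => f (a j)) (fun x hx => by
    rw [ev3_pol3]
    have := h1 _ (h x hx)
    rw [map_sum] at this
    rw [← this]
    refine Finset.sum_congr rfl fun j _ => ?_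
    rw [map_smul, smul_eq_mul, mul_comm])
  have h4 := coeff_pol3 I (fun j => f (a j)) hi
  rw [h3] at h4
  exact h2 (by simpa using h4.symm)

theorem vec_curve3 [Infinite k] {S : Set ((k × k) × k)} {R c : k[X]}
    (hS : ∀ P : k[X][X][X], (∀ x ∈ S, ev3 x.1.1 x.1.2 x.2 P = 0) → ∀ t, ev3 0 (R.eval t) (c.eval t) P = 0)
    (I : Finset (ℕ × ℕ × ℕ)) (a : ℕ × ℕ × ℕ → V)
    (h : ∀ x ∈ S, ∑ i ∈ I, (x.1.1 ^ i.1 * x.1.2 ^ i.2.1 * x.2 ^ i.2.2) • a i ∈ N)
    (n : ℕ) : ∑ i ∈ I, ((0 : k) ^ i.1 * (R ^ i.2.1 * c ^ i.2.2).coeff n) • a i ∈ N := by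
  by_contra hne
  obtain ⟨f, h1, h2⟩ := exists_form N hne
  have h3 := hS (pol3 I fun j => f (a j)) (fun x hx => by
    rw [ev3_pol3]
    have := h1 _ (h x hx)
    rw [map_sum] at this
    rw [← this]
    refine Finset.sum_congr rfl fun j _ => ?_
    rw [map_smul, smul_eq_mul, mul_comm])
  have h4 : ∑ i ∈ I, C (f (a i) * (0 : k) ^ i.1) * (R ^ i.2.1 * c ^ i.2.2) = 0 := by
    refine Polynomial.funext fun t => ?_
    have := h3 t
    rw [ev3_pol3] at this
    rw [Polynomial.eval_finsetSum, Polynomial.eval_zero]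
    refine Eq.trans (Finset.sum_congr rfl fun j _ => ?_) this
    simp only [Polynomial.eval_mul, Polynomial.eval_C, Polynomial.eval_pow]
    ring
  have h5 := congrArg (fun q => q.coeff n) h4
  simp only [Polynomial.finsetSum_coeff, Polynomial.coeff_C_mul, Polynomial.coeff_zero] at h5
  apply h2
  rw [map_sum]
  refine Eq.trans (Finset.sum_congr rfl fun j _ => ?_) h5
  rw [map_smul, smul_eq_mul]
  ring

end VEC

end TWRL
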