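import Pool.Agent.Lib.TWRL.Rel

/-! Additive polynomials: reduction modulo Q, right common multiples. -/

open Polynomial

namespace TWRL

set_option linter.unusedSectionVars false

variable {k : Type*} [Field k] [IsAlgClosed k] (p : ℕ) [hp : Fact p.Prime] [CharP k p]

/-- additive as a function. -/
def FAdd (f : k[X]) : Prop := ∀ x y, f.eval (x + y) = f.eval x + f.eval y

omit [IsAlgClosed k] in
theorem Addv.aeval_add {Q : k[X]} (hQ : Addv p Q) {R : Type*} [CommRing R] [Algebra k R] [CharP R p]
    (a b : R) : aeval (a + b) Q = aeval a Q + aeval b Q := by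
  rw [Polynomial.aeval_eq_sum_range, Polynomial.aeval_eq_sum_range, Polynomial.aeval_eq_sum_range,
    ← Finset.sum_add_distrib]
  refine Finset.sum_congr rfl fun n _ => ?_
  by_cases hn : Q.coeff n = 0
  · simp [hn]
  · obtain ⟨j, rfl⟩ := hQ n hn
    rw [add_pow_char_pow, smul_add]

omit [IsAlgClosed k] in
theorem Addv.fadd {Q : k[X]} (hQ : Addv p Q) : FAdd Q := fun x y => by
  have := hQ.aeval_add p (R := k) x y
  simpa [Polynomial.coe_aeval_eq_eval] using this

/-- all binary power identities with exponent n force n to be a p-power. -/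
theorem ppow_of_pow {n : ℕ} (h : ∀ x y : k, (x + y) ^ n = x ^ n + y ^ n) : ∃ j, n = p ^ j := by
  have hn : 1 ≤ n := by
    rcases Nat.eq_zero_or_pos n with rfl | h0
    · have := h 0 0
      simp at this
    · exact h0
  have hpol : (X + 1 : k[X]) ^ n = X ^ n + 1 := by
    refine Polynomial.funext fun x => ?_
    have := h x 1
    simpa using this
  refine ppow_of_choose (A := k) p hn fun i h1 h2 => ?_
  have e := congrArg (fun f => f.coeff i) hpol
  simp only [Polynomial.coeff_X_add_one_pow, Polynomial.coeff_add, Polynomial.coeff_X_pow,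
    Polynomial.coeff_one] at e
  rw [if_neg (by omega), if_neg (by omega), zero_add] at e
  exact e

theorem coeff_comp_C_mul_X' (f : k[X]) (a : k) (n : ℕ) : (f.comp (C a * X)).coeff n = f.coeff n * a ^ n :=
  Polynomial.comp_C_mul_X_coeff

theorem addv_of_coeff {f : k[X]} (h : ∀ x y : k, ∀ n, f.coeff n * ((x + y) ^ n - x ^ n - y ^ n) = 0) :
    Addv p f := fun n hn => by
  refine ppow_of_pow (k := k) p fun x y => ?_
  have := (mul_eq_zero.1 (h x y n)).resolve_left hn
  linear_combination this

theorem FAdd.addv {f : k[X]} (hf : FAdd f) : Addv p f := by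
  refine addv_of_coeff p fun x y n => ?_
  have e : f.comp (C (x + y) * X) - f.comp (C x * X) - f.comp (C y * X) = 0 := by
    refine Polynomial.funext fun t => ?_
    have := hf (x * t) (y * t)
    simp only [Polynomial.eval_sub, Polynomial.eval_comp, Polynomial.eval_mul, Polynomial.eval_C,
      Polynomial.eval_X, Polynomial.eval_zero]
    rw [add_mul, this]; ring
  have := congrArg (fun g => g.coeff n) e
  simp only [Polynomial.coeff_sub, coeff_comp_C_mul_X', Polynomial.coeff_zero] at this
  linear_combination this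

omit [IsAlgClosed k] in
theorem FAdd.eval_zero {f : k[X]} (hf : FAdd f) : f.eval 0 = 0 := by
  have := hf 0 0
  simpa using this

omit [IsAlgClosed k] in
theorem FAdd.add {f g : k[X]} (hf : FAdd f) (hg : FAdd g) : FAdd (f + g) := fun x y => by
  simp only [Polynomial.eval_add, hf x y, hg x y]; ring

omit [IsAlgClosed k] in
theorem FAdd.neg {f : k[X]} (hf : FAdd f) : FAdd (-f) := fun x y => by
  simp only [Polynomial.eval_neg, hf x y]; ring

omit [IsAlgClosed k] in
theorem FAdd.sub {f g : k[X]} (hf : FAdd f) (hg : FAdd g) : FAdd (f - g) := by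
  rw [sub_eq_add_neg]; exact hf.add hg.neg

omit [IsAlgClosed k] in
theorem FAdd.comp {f g : k[X]} (hf : FAdd f) (hg : FAdd g) : FAdd (f.comp g) := fun x y => by
  rw [Polynomial.eval_comp, Polynomial.eval_comp, Polynomial.eval_comp, hg x y]
  exact hf _ _

omit [IsAlgClosed k] in
theorem FAdd.zero : FAdd (0 : k[X]) := fun x y => by simp

omit [IsAlgClosed k] in
theorem FAdd.X : FAdd (X : k[X]) := fun x y => by simp

omit [IsAlgClosed k] in
theorem FAdd.mono (a : k) (j : ℕ) : FAdd (C a * Polynomial.X ^ p ^ j : k[X]) := fun x y => by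
  simp only [Polynomial.eval_mul, Polynomial.eval_C, Polynomial.eval_pow, Polynomial.eval_X]
  rw [add_pow_char_pow]; ring

omit [IsAlgClosed k] [CharP k p] hp in
theorem Addv.natDegree {f : k[X]} (hf : Addv p f) (h0 : f ≠ 0) : ∃ m, f.natDegree = p ^ m :=
  hf _ (fun e => h0 (Polynomial.leadingCoeff_eq_zero.1 e))

theorem exists_root_ppow (a : k) (m : ℕ) : ∃ b : k, b ^ p ^ m = a :=
  IsAlgClosed.exists_pow_nat_eq a (pow_pos hp.out.pos m)

theorem FAdd.comp_add {Q : k[X]} (hQ : FAdd Q) (f g : k[X]) : Q.comp (f + g) = Q.comp f + Q.comp g := by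
  refine Polynomial.funext fun t => ?_
  rw [Polynomial.eval_comp, Polynomial.eval_add, Polynomial.eval_add, Polynomial.eval_comp,
    Polynomial.eval_comp]
  exact hQ _ _

theorem deg_drop {f : k[X]} {N : ℕ} (h : f.natDegree ≤ N + 1) (h0 : f.coeff (N + 1) = 0) :
    f.natDegree ≤ N := by
  by_contra hlt
  have e : f.natDegree = N + 1 := by omega
  have e0 : f.leadingCoeff = 0 := by
    rw [Polynomial.leadingCoeff, e]; exact h0
  rw [Polynomial.leadingCoeff_eq_zero.1 e0] at hlt
  simp at hlt

/-- reduction: no exponent divisible by p^m is left. -/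
theorem exists_red {Q : k[X]} (hQ : FAdd Q) (hm : Q.Monic) {m : ℕ} (hd : Q.natDegree = p ^ m) (N : ℕ) :
    ∀ g : k[X], g.natDegree ≤ N → g.eval 0 = 0 → ∃ h : k[X], h.eval 0 = 0 ∧
      ∀ n, (g - Q.comp h).coeff n ≠ 0 → ¬ p ^ m ∣ n := by
  have hQ0 := hQ.eval_zero
  induction N with
  | zero =>
    intro g hg h0
    have : g = 0 := by
      rw [Polynomial.eq_C_of_natDegree_le_zero hg] at h0 ⊢
      simp only [Polynomial.eval_C] at h0
      rw [h0, map_zero]
    refine ⟨0, by simp, fun n hn => ?_⟩
    rw [this] at hn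
    simp only [Polynomial.comp_zero, hQ0, map_zero, sub_zero, Polynomial.coeff_zero, ne_eq,
      not_true_eq_false] at hn
  | succ N ih =>
    intro g hg h0
    by_cases hN : g.coeff (N + 1) = 0
    · exact ih g (deg_drop hg hN) h0
    by_cases hdv : p ^ m ∣ N + 1
    · obtain ⟨i, hi⟩ := hdv
      obtain ⟨b, hb⟩ := exists_root_ppow p (g.coeff (N + 1)) m
      have hi0 : i ≠ 0 := by rintro rfl; simp at hi
      have hb0 : b ≠ 0 := by
        rintro rfl
        rw [zero_pow (pow_pos hp.out.pos m).ne'] at hb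
        exact hN hb.symm
      have hcn : (C b * X ^ i : k[X]).natDegree = i := by
        rw [Polynomial.natDegree_C_mul_X_pow i b hb0]
      have hdeg : (Q.comp (C b * X ^ i)).natDegree = N + 1 := by
        rw [Polynomial.natDegree_comp, hd, hcn, hi]
      have hlc : (Q.comp (C b * X ^ i)).coeff (N + 1) = g.coeff (N + 1) := by
        rw [← hdeg]
        have h1 := Polynomial.leadingCoeff_comp (p := Q) (q := (C b * X ^ i : k[X])) (by rw [hcn]; exact hi0)
        have h2 : (C b * X ^ i : k[X]).leadingCoeff = b := by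
          rw [Polynomial.leadingCoeff_C_mul_X_pow]
        rw [hm.leadingCoeff, one_mul, hd, h2, hb] at h1
        rw [← hdeg] at h1
        exact h1
      have hle : (g - Q.comp (C b * X ^ i)).natDegree ≤ N + 1 :=
        (Polynomial.natDegree_sub_le _ _).trans (max_le hg hdeg.le)
      have hc0 : (g - Q.comp (C b * X ^ i)).coeff (N + 1) = 0 := by
        rw [Polynomial.coeff_sub, hlc, sub_self]
      obtain ⟨h, hh0, hh⟩ := ih (g - Q.comp (C b * X ^ i)) (deg_drop hle hc0) (by
        rw [Polynomial.eval_sub, h0, Polynomial.eval_comp]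
        simp [hi0, hQ0])
      refine ⟨C b * X ^ i + h, by simp [hi0, hh0], fun n hn => hh n ?_⟩
      rw [hQ.comp_add, ← sub_sub] at hn
      exact hn
    · obtain ⟨h, hh0, hh⟩ := ih (g - C (g.coeff (N + 1)) * X ^ (N + 1)) (by
        have hle : (g - C (g.coeff (N + 1)) * X ^ (N + 1)).natDegree ≤ N + 1 :=
          (Polynomial.natDegree_sub_le _ _).trans (max_le hg (Polynomial.natDegree_C_mul_X_pow_le _ _))
        have hc0 : (g - C (g.coeff (N + 1)) * X ^ (N + 1)).coeff (N + 1) = 0 := by simp
        exact deg_drop hle hc0) (by simp [h0])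
      refine ⟨h, hh0, fun n hn => ?_⟩
      by_cases hnN : n = N + 1
      · rw [hnN]; exact hdv
      · refine hh n ?_
        have : (g - C (g.coeff (N + 1)) * X ^ (N + 1) - Q.comp h).coeff n = (g - Q.comp h).coeff n := by
          simp only [Polynomial.coeff_sub, Polynomial.coeff_C_mul, Polynomial.coeff_X_pow, if_neg hnN]
          ring
        rw [this]; exact hn

/-- **RED.** -/
theorem red {Q : k[X]} (hQ : FAdd Q) (hm : Q.Monic) {m : ℕ} (hd : Q.natDegree = p ^ m) {g : k[X]}
    {δ : k → k → k} (hδ : ∀ x y, ∃ D : k[X], ∀ t, δ (x * t) (y * t) = D.eval t)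
    (hg : ∀ s s', g.eval (s + s') - g.eval s - g.eval s' = Q.eval (δ s s')) (h00 : δ 0 0 = 0) :
    ∃ A h : k[X], FAdd A ∧ h.eval 0 = 0 ∧ g = A + Q.comp h ∧
      ∀ s s', δ s s' = h.eval (s + s') - h.eval s - h.eval s' := by
  have hQ0 := hQ.eval_zero
  have hg0 : g.eval 0 = 0 := by
    have := hg 0 0
    rw [h00, hQ0, add_zero] at this
    linear_combination -this
  obtain ⟨h, hh0, hh⟩ := exists_red p hQ hm hd g.natDegree g le_rfl hg0
  obtain ⟨A, hA⟩ : ∃ A, A = g - Q.comp h := ⟨_, rfl⟩
  rw [← hA] at hh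
  have key : ∀ x y : k, ∃ D' : k[X], D' = 0 ∧ (∀ t, D'.eval t = δ (x * t) (y * t) -
      h.eval ((x + y) * t) + h.eval (x * t) + h.eval (y * t)) ∧
      Q.comp D' = A.comp (C (x + y) * X) - A.comp (C x * X) - A.comp (C y * X) := by
    intro x y
    obtain ⟨D, hD⟩ := hδ x y
    obtain ⟨D', hD'⟩ : ∃ D', D' = D - h.comp (C (x + y) * X) + h.comp (C x * X) + h.comp (C y * X) := ⟨_, rfl⟩
    have hev : ∀ t, D'.eval t = δ (x * t) (y * t) -
        h.eval ((x + y) * t) + h.eval (x * t) + h.eval (y * t) := by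
      intro t
      rw [hD', hD t]
      simp
    have heq : Q.comp D' = A.comp (C (x + y) * X) - A.comp (C x * X) - A.comp (C y * X) := by
      refine Polynomial.funext fun t => ?_
      have e1 := hg (x * t) (y * t)
      have e2 : Q.eval (D'.eval t) = Q.eval (δ (x * t) (y * t)) - Q.eval (h.eval ((x + y) * t)) +
          Q.eval (h.eval (x * t)) + Q.eval (h.eval (y * t)) := by
        rw [hev t]
        have h1 := hQ (δ (x * t) (y * t) - h.eval ((x + y) * t)) (h.eval (x * t))
        have h2 := hQ (δ (x * t) (y * t) - h.eval ((x + y) * t) + h.eval (x * t)) (h.eval (y * t))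
        have h3 := hQ (δ (x * t) (y * t) - h.eval ((x + y) * t)) (h.eval ((x + y) * t))
        rw [sub_add_cancel] at h3
        rw [h2, h1]
        linear_combination -h3
      rw [Polynomial.eval_comp, e2, hA]
      simp only [Polynomial.eval_sub, Polynomial.eval_comp, Polynomial.eval_mul, Polynomial.eval_C,
        Polynomial.eval_X]
      rw [add_mul] at *
      linear_combination -e1
    refine ⟨D', ?_, hev, heq⟩
    have hdeg : D'.natDegree = 0 := by
      by_contra hne
      have hne' : D' ≠ 0 := fun e => hne (by rw [e]; simp)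
      have hn : (Q.comp D').natDegree = p ^ m * D'.natDegree := by rw [Polynomial.natDegree_comp, hd]
      have hc : (Q.comp D').coeff (p ^ m * D'.natDegree) ≠ 0 := by
        rw [← hn]
        intro e
        have e0 := Polynomial.leadingCoeff_eq_zero.1 e
        rw [e0] at hn
        simp only [Polynomial.natDegree_zero] at hn
        have := Nat.mul_ne_zero (pow_pos hp.out.pos m).ne' hne
        exact this hn.symm
      rw [heq] at hc
      simp only [Polynomial.coeff_sub, coeff_comp_C_mul_X'] at hc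
      have hAc : A.coeff (p ^ m * D'.natDegree) ≠ 0 := by
        intro e
        rw [e] at hc
        simp at hc
      exact hh _ hAc (Dvd.intro _ rfl)
    have h0 := hev 0
    simp only [mul_zero, h00, hh0] at h0
    rw [Polynomial.eq_C_of_natDegree_le_zero hdeg.le] at h0 ⊢
    rw [Polynomial.eval_C] at h0
    rw [h0]
    simp
  have hAadd : FAdd A := by
    refine (addv_of_coeff (k := k) p fun x y n => ?_).fadd p
    obtain ⟨D', h1, -, h3⟩ := key x y
    rw [h1, Polynomial.comp_zero, hQ0, map_zero] at h3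
    have := congrArg (fun f => f.coeff n) h3
    simp only [Polynomial.coeff_sub, coeff_comp_C_mul_X', Polynomial.coeff_zero] at this
    linear_combination -this
  refine ⟨A, h, hAadd, hh0, by rw [hA]; ring, fun s s' => ?_⟩
  obtain ⟨D', h1, h2, -⟩ := key s s'
  have := h2 1
  rw [h1] at this
  simp only [mul_one, Polynomial.eval_zero] at this
  linear_combination -this

include p in
/-- left division. -/
theorem exists_div {Q : k[X]} (hQ : FAdd Q) (hQ0 : Q ≠ 0) (N : ℕ) :
    ∀ A : k[X], FAdd A → A.natDegree ≤ N → ∃ B A1 : k[X], FAdd B ∧ FAdd A1 ∧ A = Q.comp B + A1 ∧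
      (A1 = 0 ∨ A1.natDegree < Q.natDegree) := by
  obtain ⟨m, hm⟩ := (hQ.addv p).natDegree p hQ0
  induction N with
  | zero =>
    intro A hA hd
    refine ⟨0, A, FAdd.zero, hA, by simp [hQ.eval_zero], Or.inl ?_⟩
    have h0 := hA.eval_zero
    rw [Polynomial.eq_C_of_natDegree_le_zero hd] at h0 ⊢
    simp only [Polynomial.eval_C] at h0
    rw [h0, map_zero]
  | succ N ih =>
    intro A hA hd
    by_cases hc : A.coeff (N + 1) = 0
    · exact ih A hA (deg_drop hd hc)
    have hA0 : A ≠ 0 := by rintro rfl; simp at hc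
    have hdN : A.natDegree = N + 1 := le_antisymm hd (Polynomial.le_natDegree_of_ne_zero hc)
    obtain ⟨n, hn⟩ := (hA.addv p).natDegree p hA0
    by_cases hlt : A.natDegree < Q.natDegree
    · exact ⟨0, A, FAdd.zero, hA, by simp [hQ.eval_zero], Or.inr hlt⟩
    have hmn : m ≤ n := by
      rw [hn, hm, not_lt] at hlt
      exact (Nat.pow_le_pow_iff_right hp.out.one_lt).1 hlt
    have hq : Q.leadingCoeff ≠ 0 := fun e => hQ0 (Polynomial.leadingCoeff_eq_zero.1 e)
    obtain ⟨b, hb⟩ := exists_root_ppow p (A.coeff (N + 1) / Q.leadingCoeff) m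
    have hb0 : b ≠ 0 := by
      rintro rfl
      rw [zero_pow (pow_pos hp.out.pos m).ne'] at hb
      exact div_ne_zero hc hq hb.symm
    have hcn : (C b * X ^ p ^ (n - m) : k[X]).natDegree = p ^ (n - m) := by
      rw [Polynomial.natDegree_C_mul_X_pow _ b hb0]
    have hdeg : (Q.comp (C b * X ^ p ^ (n - m))).natDegree = N + 1 := by
      rw [Polynomial.natDegree_comp, hm, hcn, ← pow_add, Nat.add_sub_cancel' hmn, ← hdN, hn]
    have hlc : (Q.comp (C b * X ^ p ^ (n - m))).coeff (N + 1) = A.coeff (N + 1) := by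
      have h1 := Polynomial.leadingCoeff_comp (p := Q) (q := (C b * X ^ p ^ (n - m) : k[X]))
        (by rw [hcn]; exact (pow_pos hp.out.pos _).ne')
      have h2 : (C b * X ^ p ^ (n - m) : k[X]).leadingCoeff = b := by
        rw [Polynomial.leadingCoeff_C_mul_X_pow]
      rw [hm, h2, hb, mul_div_cancel₀ _ hq] at h1
      rw [← hdeg] at h1 ⊢
      exact h1
    have hle : (A - Q.comp (C b * X ^ p ^ (n - m))).natDegree ≤ N + 1 :=
      (Polynomial.natDegree_sub_le _ _).trans (max_le hd hdeg.le)
    have hc0 : (A - Q.comp (C b * X ^ p ^ (n - m))).coeff (N + 1) = 0 := by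
      rw [Polynomial.coeff_sub, hlc, sub_self]
    have hmono : FAdd (C b * X ^ p ^ (n - m) : k[X]) := FAdd.mono p b _
    obtain ⟨B, A1, hB, hA1, e, hor⟩ := ih _ (hA.sub (hQ.comp hmono)) (deg_drop hle hc0)
    refine ⟨C b * X ^ p ^ (n - m) + B, A1, hmono.add hB, hA1, ?_, hor⟩
    rw [hQ.comp_add]
    linear_combination e

include p in
/-- **ORE.** -/
theorem ore (N : ℕ) : ∀ A Q : k[X], FAdd A → FAdd Q → Q ≠ 0 → Q.natDegree ≤ N →
    ∃ R B : k[X], FAdd R ∧ FAdd B ∧ R ≠ 0 ∧ A.comp R = Q.comp B := by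
  induction N with
  | zero =>
    intro A Q _ hQ hQ0 hd
    exfalso
    have h0 := hQ.eval_zero
    rw [Polynomial.eq_C_of_natDegree_le_zero hd] at h0
    simp only [Polynomial.eval_C] at h0
    rw [Polynomial.eq_C_of_natDegree_le_zero hd, h0, map_zero] at hQ0
    exact hQ0 rfl
  | succ N ih =>
    intro A Q hA hQ hQ0 hd
    obtain ⟨B1, A1, hB1, hA1, e, hor⟩ := exists_div p hQ hQ0 A.natDegree A hA le_rfl
    by_cases hA10 : A1 = 0
    · refine ⟨X, B1, FAdd.X, hB1, Polynomial.X_ne_zero, ?_⟩
      rw [Polynomial.comp_X, e, hA10, add_zero]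
    have hlt : A1.natDegree < Q.natDegree := hor.resolve_left hA10
    obtain ⟨R1, B2, hR1, hB2, hR10, e2⟩ := ih Q A1 hQ hA1 hA10 (by omega)
    have hB20 : B2 ≠ 0 := by
      rintro rfl
      rw [Polynomial.comp_zero, hA1.eval_zero, map_zero] at e2
      rcases Polynomial.comp_eq_zero_iff.1 e2 with h | ⟨h1, h2⟩
      · exact hQ0 h
      · have := hR1.eval_zero
        rw [h2, Polynomial.eval_C] at this
        rw [this, map_zero] at h2
        exact hR10 h2
    refine ⟨B2, B1.comp B2 + R1, hB2, (hB1.comp hB2).add hR1, hB20, ?_⟩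
    rw [hQ.comp_add, e2, e, Polynomial.add_comp, Polynomial.comp_assoc]

end TWRL
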