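import Pool.Agent.Lib.TWRL.Add

/-! Iterated extensions, curves in the closure. -/

open Polynomial

namespace TWRL

set_option linter.unusedSectionVars false

section EXT

variable {k A β : Type*} [Field k] [CommRing A] [Nontrivial A] [Algebra k A]

/-- the extension of the base by one more coordinate. -/
noncomputable def Base.ext (B : Base k A β) (D : β → A) (hd0 : ∀ b, B.ev B.o (D b) = 0) :
    Base k A[X] (β × k) where
  ev x := { toRingHom := (Polynomial.evalRingHom x.2).comp (Polynomial.mapRingHom (B.ev x.1).toRingHom)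
            commutes' := fun r => by
              rw [Polynomial.algebraMap_apply]
              simp }
  o := (B.o, 0)
  mul x y := (B.mul x.1 y.1, x.2 + y.2 + B.ev x.1 (D y.1))
  tr y := { toRingHom := (Polynomial.compRingHom (X + C (algebraMap k A y.2 + D y.1))).comp
              (Polynomial.mapRingHom (B.tr y.1).toRingHom)
            commutes' := fun r => by
              rw [Polynomial.algebraMap_apply]
              simp }
  ev_tr x y P := evE_trn B D x y P
  mul_o y := by
    refine Prod.ext (B.mul_o _) ?_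
    simp [hd0]
  W := ℕ × B.W
  rk P := (P.natDegree, B.rk P.leadingCoeff)
  lt := Prod.Lex (· < ·) B.lt
  wf := WellFounded.prod_lex wellFounded_lt B.wf
  rk_lt y P hne := by
    have hne' : trn B D y P - P ≠ 0 := sub_ne_zero.2 hne
    change Prod.Lex (· < ·) B.lt ((trn B D y P - P).natDegree, B.rk (trn B D y P - P).leadingCoeff) _
    rw [Prod.lex_def]
    have hle : (trn B D y P - P).natDegree ≤ P.natDegree :=
      (Polynomial.natDegree_sub_le _ _).trans (max_le (natDegree_trn_le y P) le_rfl)
    rcases hle.lt_or_eq with h | h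
    · exact Or.inl h
    · refine Or.inr ⟨h, ?_⟩
      have e : (trn B D y P - P).leadingCoeff = B.tr y.1 P.leadingCoeff - P.leadingCoeff := by
        rw [Polynomial.leadingCoeff, h, Polynomial.coeff_sub, coeff_trn_top _ _ _ le_rfl]
        rfl
      have h0 : (trn B D y P - P).leadingCoeff ≠ 0 := fun h1 =>
        hne' (Polynomial.leadingCoeff_eq_zero.1 h1)
      change B.lt (B.rk (trn B D y P - P).leadingCoeff) (B.rk P.leadingCoeff)
      rw [e] at h0 ⊢
      exact B.rk_lt _ _ (fun h2 => h0 (by rw [h2, sub_self]))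

theorem Base.ext_ev (B : Base k A β) (D : β → A) (hd0) (x : β × k) (P : A[X]) :
    (B.ext D hd0).ev x P = B.evE x.1 x.2 P := rfl

end EXT

section BASE1

variable (k : Type*) [Field k]

/-- the additive group. -/
noncomputable def base1 : Base k k[X] k where
  ev s := Polynomial.aeval s
  o := 0
  mul s t := s + t
  tr t := Polynomial.aeval (X + C t)
  ev_tr s t f := by
    rw [← Polynomial.aeval_algHom_apply]
    simp
  mul_o t := zero_add t
  W := ℕ
  rk := Polynomial.natDegree
  lt := (· < ·)
  wf := wellFounded_lt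
  rk_lt t f hne := by
    have e : aeval (X + C t) f = f.comp (X + C t) := rfl
    rw [e] at hne ⊢
    have hle : (f.comp (X + C t) - f).natDegree ≤ f.natDegree := by
      refine (Polynomial.natDegree_sub_le _ _).trans (max_le ?_ le_rfl)
      rw [Polynomial.natDegree_comp, Polynomial.natDegree_X_add_C, mul_one]
    refine lt_of_le_of_ne hle fun h => hne ?_
    have h0 : (f.comp (X + C t) - f).leadingCoeff = 0 := by
      rw [Polynomial.leadingCoeff, h, Polynomial.coeff_sub, coeff_comp_top _ _ _ le_rfl, sub_self]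
    exact sub_eq_zero.1 (Polynomial.leadingCoeff_eq_zero.1 h0)

end BASE1

section CURVE

variable {k A β : Type*} [Field k] [IsAlgClosed k] [CommRing A] [Nontrivial A] [Algebra k A]
  (p : ℕ) [hp : Fact p.Prime] [CharP k p]
  {B : Base k A β} {S : Set (β × k)} {D : β → A}

/-- a polynomial line in the base, along which everything is polynomial. -/
structure Line (B : Base k A β) (D : β → A) (l : k → β) : Prop where
  z : l 0 = B.o
  add : ∀ s s', B.mul (l s) (l s') = l (s + s')
  pol : ∀ f : A, ∃ F : k[X], ∀ s, B.ev (l s) f = F.eval s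
  left : ∀ s (f : A), ∃ f' : A, ∀ b', B.ev (B.mul (l s) b') f = B.ev b' f'
  dr : ∀ s, ∃ E : A, ∀ b', B.ev (l s) (D b') = B.ev b' E
  dd : ∀ x y, ∃ F : k[X], ∀ t, B.ev (l (x * t)) (D (l (y * t))) = F.eval t

/-- **The curve lemma.** -/
theorem curve (h : Ext B S D) {l : k → β} (hl : Line B D l) {Q : k[X]} {g : A} (hQa : Addv p Q)
    (hm : Q.Monic) (hv : ∀ P : A[X], Van B S P ↔ (Q.map (algebraMap k A) - C g) ∣ P) :
    ∃ R c : k[X], FAdd R ∧ R ≠ 0 ∧ c.eval 0 = 0 ∧
      (∀ P : A[X], Van B S P → ∀ t, B.evE (l (R.eval t)) (c.eval t) P = 0) ∧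
      (∀ t t', c.eval (t + t') = c.eval t + c.eval t' + B.ev (l (R.eval t)) (D (l (R.eval t')))) ∧
      (∀ s e, (l s, e) ∈ S → ∀ t, R.eval t = s → Q.eval (e - c.eval t) = 0) ∧
      ∃ B' hh : k[X], FAdd B' ∧ hh.eval 0 = 0 ∧ c = B' + hh.comp R ∧
        ∀ s s', B.ev (l s) (D (l s')) = hh.eval (s + s') - hh.eval s - hh.eval s' := by
  have hQ : FAdd Q := hQa.fadd p
  have hQ0 : Q ≠ 0 := hm.ne_zero
  obtain ⟨m, hd⟩ := hQa.natDegree p hQ0
  have hevE : ∀ b e, B.evE b e (Q.map (algebraMap k A) - C g) = Q.eval e - B.ev b g := by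
    intro b e
    unfold Base.evE
    rw [Polynomial.map_sub, Polynomial.map_map, Polynomial.eval_sub, Polynomial.map_C, Polynomial.eval_C]
    congr 2
    have : (B.ev b).toRingHom.comp (algebraMap k A) = RingHom.id k := by
      ext r; simp
    rw [this, Polynomial.map_id]
  have hS : ∀ z ∈ S, Q.eval z.2 = B.ev z.1 g := by
    intro z hz
    have := (hv _).2 (dvd_refl _) z hz
    rw [hevE] at this
    exact sub_eq_zero.1 this
  have haev : ∀ b (f : A), B.ev b (aeval f Q) = Q.eval (B.ev b f) := by
    intro b f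
    rw [← Polynomial.aeval_algHom_apply, Polynomial.coe_aeval_eq_eval]
  -- identity in the first variable
  have I2 : ∀ y ∈ S, ∀ b, B.ev (B.mul b y.1) g = B.ev b g + B.ev y.1 g + Q.eval (B.ev b (D y.1)) := by
    intro y hy
    have hf := h.dense (B.tr y.1 g - g - algebraMap k A (B.ev y.1 g) - aeval (D y.1) Q) (by
      intro x hx
      have h1 := hS _ (h.mul x hx y hy)
      have h2 := hS x hx
      have h3 := hS y hy
      simp only [map_sub, B.ev_tr, haev, AlgHom.commutes]
      have h4 := hQ (x.2 + y.2) (B.ev x.1 (D y.1))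
      have h5 := hQ x.2 y.2
      simp only at h1
      rw [h4, h5, h2, h3] at h1
      simp only [Algebra.algebraMap_self_apply]
      linear_combination -h1)
    intro b
    have e := congrArg (B.ev b) hf
    simp only [map_sub, B.ev_tr, haev, AlgHom.commutes, map_zero, Algebra.algebraMap_self_apply] at e
    linear_combination e
  have I3 : ∀ s b', B.ev (B.mul (l s) b') g = B.ev (l s) g + B.ev b' g + Q.eval (B.ev (l s) (D b')) := by
    intro s
    obtain ⟨g', hg'⟩ := hl.left s g
    obtain ⟨E, hE⟩ := hl.dr s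
    have hf := h.dense (g' - algebraMap k A (B.ev (l s) g) - g - aeval E Q) (by
      intro y hy
      have h1 := I2 y hy (l s)
      simp only [map_sub, haev, AlgHom.commutes, Algebra.algebraMap_self_apply]
      rw [← hg', ← hE]
      linear_combination h1)
    intro b'
    have e := congrArg (B.ev b') hf
    simp only [map_sub, haev, AlgHom.commutes, map_zero, Algebra.algebraMap_self_apply] at e
    rw [← hg', ← hE] at e
    linear_combination e
  obtain ⟨G, hG⟩ := hl.pol g
  have hGa : ∀ s s', G.eval (s + s') - G.eval s - G.eval s' = Q.eval (B.ev (l s) (D (l s'))) := by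
    intro s s'
    have := I3 s (l s')
    rw [hl.add, hG, hG, hG] at this
    linear_combination this
  obtain ⟨A', hh, hA', hh0, hGe, hde⟩ := red (k := k) p hQ hm hd (g := G)
    (δ := fun s s' => B.ev (l s) (D (l s'))) hl.dd hGa (by rw [hl.z]; exact h.d0 _)
  obtain ⟨R, B', hR, hB', hR0, hRe⟩ := ore p Q.natDegree A' Q hA' hQ hQ0 le_rfl
  have hQc : ∀ t, Q.eval ((B' + hh.comp R).eval t) = B.ev (l (R.eval t)) g := by
    intro t
    rw [Polynomial.eval_add, hQ, ← Polynomial.eval_comp, ← hRe, hG, hGe]
    simp only [Polynomial.eval_comp, Polynomial.eval_add]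
  refine ⟨R, B' + hh.comp R, hR, hR0, ?_, ?_, ?_, ?_, B', hh, hB', hh0, rfl, hde⟩
  · rw [Polynomial.eval_add, Polynomial.eval_comp, hB'.eval_zero, hR.eval_zero, hh0, add_zero]
  · intro P hP t
    obtain ⟨P', rfl⟩ := (hv P).1 hP
    have e1 := hevE (l (R.eval t)) ((B' + hh.comp R).eval t)
    rw [hQc, sub_self] at e1
    unfold Base.evE at e1 ⊢
    rw [Polynomial.map_mul, Polynomial.eval_mul, e1, zero_mul]
  · intro t t'
    have e := hde (R.eval t) (R.eval t')
    simp only [Polynomial.eval_add, Polynomial.eval_comp] at e ⊢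
    rw [hB' t t', hR t t', e]
    ring
  · intro s e he t ht
    have h1 := hS _ he
    have h2 := hQ (e - (B' + hh.comp R).eval t) ((B' + hh.comp R).eval t)
    rw [sub_add_cancel, hQc, ht] at h2
    simp only at h1
    rw [h1] at h2
    linear_combination -h2

end CURVE

end TWRL
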