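import Pool.Agent.Lib.TWRL.Main

/-! The group step with weights: `S` is stable under `(s, c) ↦ (a s, b c)`, the law is homogeneous;
then the curve can be chosen homogeneous: `R (θ t) = a R t`, `c (θ t) = b c t`. -/

open Polynomial

namespace TWRL

set_option linter.unusedSectionVars false

section HOM

variable {k : Type*} [Field k] [IsAlgClosed k] (p : ℕ) [hp : Fact p.Prime] [CharP k p]

theorem eval_CX (f : k[X]) (a t : k) : (f.comp (C a * X)).eval t = f.eval (a * t) := by
  rw [eval_comp, eval_mul, eval_C, eval_X]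

theorem add_comp_inj {Q : k[X]} (hQ : FAdd Q) (hQ0 : Q ≠ 0) {f g : k[X]} (h : Q.comp f = Q.comp g)
    (h0 : f.eval 0 = g.eval 0) : f = g := by
  have e : Q.comp (f - g) = 0 := by
    have h1 := hQ.comp_add (f - g) g
    rw [sub_add_cancel, h] at h1
    linear_combination -h1
  rcases Polynomial.comp_eq_zero_iff.1 e with h1 | ⟨-, h2⟩
  · exact absurd h1 hQ0
  · have h3 : (f - g).eval 0 = 0 := by rw [eval_sub, h0, sub_self]
    rw [h2, eval_C] at h3
    rw [h3, map_zero] at h2
    exact sub_eq_zero.1 h2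

/-- homogeneity. -/
theorem hm_scal {Q : k[X]} {b c : k} (hb : Q.comp (C b * X) = C c * Q)
    (f : k[X]) : Q.comp (C b * f) = C c * Q.comp f := by
  have e : (C b * f : k[X]) = (C b * X : k[X]).comp f := by
    rw [mul_comp, C_comp, X_comp]
  rw [e, ← comp_assoc, hb, mul_comp, C_comp]

theorem hm_inv {Q : k[X]} {b c : k} (hb0 : b ≠ 0) (hc0 : c ≠ 0) (hb : Q.comp (C b * X) = C c * Q) :
    Q.comp (C b⁻¹ * X) = C c⁻¹ * Q := by
  have h1 := hm_scal hb (C b⁻¹ * X)
  rw [← mul_assoc, ← C_mul, mul_inv_cancel₀ hb0, C_1, one_mul, comp_X] at h1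
  have h2 : C c⁻¹ * (C c * Q.comp (C b⁻¹ * X)) = Q.comp (C b⁻¹ * X) := by
    rw [← mul_assoc, ← C_mul, inv_mul_cancel₀ hc0, C_1, one_mul]
  rw [← h2, ← h1]

theorem natDegree_CX {f : k[X]} {a : k} : (f.comp (C a * X)).natDegree ≤ f.natDegree := by
  refine natDegree_comp_le.trans ?_
  refine (Nat.mul_le_mul_left _ ((natDegree_C_mul_le _ _).trans natDegree_X_le)).trans ?_
  rw [mul_one]

theorem pos_of_fadd {Q : k[X]} (hQ : FAdd Q) (hQ0 : Q ≠ 0) : 0 < Q.natDegree := by
  by_contra hle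
  have h1 := hQ.eval_zero
  rw [eq_C_of_natDegree_le_zero (not_lt.1 hle)] at h1
  simp only [eval_C] at h1
  have h2 := eq_C_of_natDegree_le_zero (not_lt.1 hle)
  rw [h1, map_zero] at h2
  exact hQ0 h2

/-- **RED with weights.** -/
theorem red_hom {Q : k[X]} (hQ : FAdd Q) (hm : Q.Monic) {a b c : k}
    (hQb : Q.comp (C b * X) = C c * Q) {A h : k[X]}
    (hA1 : A = 0 ∨ A.natDegree < Q.natDegree) (h0 : h.eval 0 = 0)
    (hg : (A + Q.comp h).comp (C a * X) = C c * (A + Q.comp h)) :
    h.comp (C a * X) = C b * h ∧ A.comp (C a * X) = C c * A := by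
  have hQ0 : Q ≠ 0 := hm.ne_zero
  have hN := pos_of_fadd hQ hQ0
  -- the difference
  have hbh : (C b * h : k[X]).eval 0 = 0 := by rw [eval_mul, h0, mul_zero]
  have hah : (h.comp (C a * X)).eval 0 = 0 := by rw [eval_CX, mul_zero, h0]
  rw [add_comp, mul_add, comp_assoc, ← hm_scal hQb h] at hg
  have e1 : Q.comp (h.comp (C a * X) - C b * h) = C c * A - A.comp (C a * X) := by
    have h1 := hQ.comp_add (h.comp (C a * X) - C b * h) (C b * h)
    rw [sub_add_cancel] at h1
    linear_combination hg - h1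
  have hz : h.comp (C a * X) - C b * h = 0 := by
    by_contra hne
    have hdeg : (h.comp (C a * X) - C b * h).natDegree ≠ 0 := by
      intro h1
      have h2 := eq_C_of_natDegree_eq_zero h1
      have h3 : (h.comp (C a * X) - C b * h).eval 0 = 0 := by rw [eval_sub, hah, hbh, sub_zero]
      rw [h2, eval_C] at h3
      rw [h3, map_zero] at h2
      exact hne h2
    have h4 : (Q.comp (h.comp (C a * X) - C b * h)).natDegree =
        Q.natDegree * (h.comp (C a * X) - C b * h).natDegree := natDegree_comp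
    have h5 : Q.natDegree ≤ (Q.comp (h.comp (C a * X) - C b * h)).natDegree := by
      rw [h4]
      exact Nat.le_mul_of_pos_right _ (Nat.pos_of_ne_zero hdeg)
    have h6 : (C c * A - A.comp (C a * X)).natDegree < Q.natDegree := by
      rcases hA1 with h7 | h7
      · rw [h7, mul_zero, zero_comp, sub_zero, natDegree_zero]
        exact hN
      · exact (natDegree_sub_le _ _).trans_lt (max_lt ((natDegree_C_mul_le _ _).trans_lt h7)
          (natDegree_CX.trans_lt h7))
    rw [e1] at h5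
    omega
  refine ⟨sub_eq_zero.1 hz, ?_⟩
  rw [hz, comp_zero, hQ.eval_zero, map_zero] at e1
  exact (sub_eq_zero.1 e1.symm).symm

theorem fadd_hom {R : k[X]} (hR : FAdd R) (u θ : k) : FAdd (C u * R.comp (C θ * X)) := fun x y => by
  simp only [eval_mul, eval_C, eval_CX, mul_add]
  rw [hR (θ * x) (θ * y)]
  ring

include p in
/-- **ORE with weights**, the solution of minimal degree. -/
theorem ore_hom {A Q : k[X]} (hA : FAdd A) (hQ : FAdd Q) (hQ0 : Q ≠ 0) :
    ∃ R B : k[X], FAdd R ∧ FAdd B ∧ R ≠ 0 ∧ A.comp R = Q.comp B ∧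
      ∀ a b c : k, a ≠ 0 → b ≠ 0 → c ≠ 0 → Q.comp (C b * X) = C c * Q →
        A.comp (C a * X) = C c * A → ∀ θ : k, θ ^ R.natDegree = a →
          R.comp (C θ * X) = C a * R ∧ B.comp (C θ * X) = C b * B := by
  classical
  have hex : ∃ d, ∃ R B : k[X], FAdd R ∧ FAdd B ∧ R ≠ 0 ∧ A.comp R = Q.comp B ∧
      R.natDegree = d := by
    obtain ⟨R, B, h1, h2, h3, h4⟩ := ore p Q.natDegree A Q hA hQ hQ0 le_rfl
    exact ⟨_, R, B, h1, h2, h3, h4, rfl⟩
  obtain ⟨R, B, hR, hB, hR0, hRB, hd⟩ := Nat.find_spec hex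
  refine ⟨R, B, hR, hB, hR0, hRB, fun a b c ha hb hc hQb hAb θ hθ => ?_⟩
  have hRpos := pos_of_fadd hR hR0
  have hlc : R.leadingCoeff ≠ 0 := leadingCoeff_ne_zero.2 hR0
  -- the second solution
  have hR1 := fadd_hom hR a⁻¹ θ
  have hB1 := fadd_hom hB b⁻¹ θ
  have e1 : A.comp (C a⁻¹ * R.comp (C θ * X)) = Q.comp (C b⁻¹ * B.comp (C θ * X)) := by
    rw [hm_scal (hm_inv ha hc hAb), hm_scal (hm_inv hb hc hQb), ← comp_assoc, ← comp_assoc, hRB]
  have hcoef : (C a⁻¹ * R.comp (C θ * X)).coeff R.natDegree = R.leadingCoeff := by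
    rw [coeff_C_mul, comp_C_mul_X_coeff, hθ, ← mul_assoc, mul_comm a⁻¹, mul_assoc,
      inv_mul_cancel₀ ha, mul_one]
    rfl
  have hz : R - C a⁻¹ * R.comp (C θ * X) = 0 := by
    by_contra hne
    have h1 : A.comp (R - C a⁻¹ * R.comp (C θ * X)) = Q.comp (B - C b⁻¹ * B.comp (C θ * X)) := by
      have h2 := hA.comp_add (R - C a⁻¹ * R.comp (C θ * X)) (C a⁻¹ * R.comp (C θ * X))
      have h3 := hQ.comp_add (B - C b⁻¹ * B.comp (C θ * X)) (C b⁻¹ * B.comp (C θ * X))
      rw [sub_add_cancel] at h2 h3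
      linear_combination hRB - h2 + h3 - e1
    have hle : (R - C a⁻¹ * R.comp (C θ * X)).natDegree ≤ R.natDegree :=
      (natDegree_sub_le _ _).trans (max_le le_rfl ((natDegree_C_mul_le _ _).trans natDegree_CX))
    have hlt : (R - C a⁻¹ * R.comp (C θ * X)).natDegree < R.natDegree := by
      refine lt_of_le_of_ne hle fun h2 => hne ?_
      have h3 : (R - C a⁻¹ * R.comp (C θ * X)).leadingCoeff = 0 := by
        rw [leadingCoeff, h2, coeff_sub, hcoef]
        exact sub_self _
      exact leadingCoeff_eq_zero.1 h3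
    rw [hd] at hlt
    exact Nat.find_min hex hlt ⟨_, _, hR.sub hR1, hB.sub hB1, hne, h1, rfl⟩
  have hRa : C a⁻¹ * R.comp (C θ * X) = R := (sub_eq_zero.1 hz).symm
  have hRa' : R.comp (C θ * X) = C a * R := by
    have h1 := congrArg (fun f => C a * f) hRa
    rw [← mul_assoc, ← C_mul, mul_inv_cancel₀ ha, C_1, one_mul] at h1
    exact h1
  refine ⟨hRa', ?_⟩
  have h1 : Q.comp (C b⁻¹ * B.comp (C θ * X)) = Q.comp B := by rw [← e1, hRa, hRB]
  have h2 := add_comp_inj hQ hQ0 h1 (by
    rw [hB1.eval_zero, hB.eval_zero])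
  have h3 := congrArg (fun f => C b * f) h2
  rw [← mul_assoc, ← C_mul, mul_inv_cancel₀ hb, C_1, one_mul] at h3
  exact h3

end HOM

section REL

variable {k A β : Type*} [Field k] [CommRing A] [Nontrivial A] [Algebra k A]
  {B : Base k A β} {S : Set (β × k)} {D : β → A}

/-- a weight on the base and on the coordinate, which preserves `S`. -/
structure Wt (B : Base k A β) (S : Set (β × k)) (b : k) (μ : β → β) (φ : A →ₐ[k] A) : Prop where
  ev : ∀ x f, B.ev x (φ f) = B.ev (μ x) f
  st : ∀ x ∈ S, (μ x.1, b * x.2) ∈ S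

theorem Wt.van {b : k} {μ : β → β} {φ : A →ₐ[k] A} (h : Wt B S b μ φ) {P : A[X]}
    (hP : Van B S P) : Van B S ((P.map φ.toRingHom).comp (C (algebraMap k A b) * X)) := by
  intro x hx
  have h1 := hP _ (h.st x hx)
  unfold Base.evE at h1 ⊢
  rw [Polynomial.map_comp, Polynomial.map_map, Polynomial.eval_comp]
  have h2 : ((B.ev x.1).toRingHom.comp φ.toRingHom) = (B.ev (μ x.1)).toRingHom := by
    ext f
    exact h.ev _ _
  rw [h2]
  simpa using h1

/-- **The relation with weights.** -/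
theorem rel_hom {p : ℕ} {b : k} {μ : β → β} {φ : A →ₐ[k] A} (h : Wt B S b μ φ) {Q : k[X]}
    {g : A} (hQa : Addv p Q) (hp : 0 < p) (hm : Q.Monic) (hd : 1 ≤ Q.natDegree)
    (hv : ∀ P : A[X], Van B S P ↔ (Q.map (algebraMap k A) - C g) ∣ P) :
    Q.comp (C b * X) = C (b ^ Q.natDegree) * Q ∧ φ g = algebraMap k A (b ^ Q.natDegree) * g := by
  have hinj := (algebraMap k A).injective
  set N := Q.natDegree with hN
  set P₀ := Q.map (algebraMap k A) - C g with hP₀
  have hQm : (Q.map (algebraMap k A)).natDegree = N := natDegree_map_eq_of_injective hinj Q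
  have hc : ∀ i, 1 ≤ i → P₀.coeff i = algebraMap k A (Q.coeff i) := fun i hi => by
    rw [hP₀, coeff_sub, coeff_map, coeff_C, if_neg (by omega), sub_zero]
  have hP₀m : P₀.Monic := by
    rw [hP₀]
    refine (hm.map _).sub_of_left ?_
    refine lt_of_le_of_lt degree_C_le ?_
    rw [degree_eq_natDegree (hm.map (algebraMap k A)).ne_zero, hQm]
    exact_mod_cast hd
  have hP₀d : P₀.natDegree = N := by
    rw [hP₀, natDegree_sub_C, hQm]
  obtain ⟨r, hr⟩ := (hv _).1 (h.van ((hv P₀).2 dvd_rfl))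
  set P₁ := (P₀.map φ.toRingHom).comp (C (algebraMap k A b) * X) with hP₁
  have hc1 : ∀ i, P₁.coeff i = φ (P₀.coeff i) * algebraMap k A b ^ i := fun i => by
    rw [hP₁, comp_C_mul_X_coeff, coeff_map]
    rfl
  have hd1 : P₁.natDegree ≤ N := by
    rw [hP₁]
    refine natDegree_comp_le.trans ?_
    refine (Nat.mul_le_mul natDegree_map_le ((natDegree_C_mul_le _ _).trans natDegree_X_le)).trans ?_
    rw [mul_one, hP₀d]
  have hr0 : r.natDegree = 0 := by
    by_cases hr1 : r = 0
    · rw [hr1, natDegree_zero]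
    · have h1 := hP₀m.natDegree_mul' hr1
      rw [← hr, hP₀d] at h1
      omega
  rw [eq_C_of_natDegree_eq_zero hr0] at hr
  set ρ := r.coeff 0 with hρ
  have hr' : ∀ i, φ (P₀.coeff i) * algebraMap k A b ^ i = P₀.coeff i * ρ := fun i => by
    rw [← hc1, hr, coeff_mul_C]
  have hρN : ρ = algebraMap k A (b ^ N) := by
    have h1 := hr' N
    have h2 : P₀.coeff N = 1 := by
      rw [← hP₀d]
      exact hP₀m
    rw [h2, map_one, one_mul, one_mul] at h1
    rw [← h1, map_pow]
  have hQ0 : Q.coeff 0 = 0 := by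
    by_contra hne
    obtain ⟨j, hj⟩ := hQa 0 hne
    exact (pow_pos hp j).ne hj
  constructor
  · ext i
    rw [comp_C_mul_X_coeff, coeff_C_mul]
    rcases Nat.eq_zero_or_pos i with rfl | hi
    · rw [hQ0, zero_mul, mul_zero]
    · have h1 := hr' i
      rw [hc i hi, φ.commutes, hρN, ← map_pow, ← map_mul, ← map_mul] at h1
      rw [hinj h1, mul_comm]
  · have h1 := hr' 0
    have h2 : P₀.coeff 0 = -g := by
      rw [hP₀, coeff_sub, coeff_map, hQ0, map_zero, coeff_C_zero, zero_sub]
    rw [h2, map_neg, pow_zero, mul_one, hρN] at h1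
    linear_combination -h1

end REL

section CURVE

variable {k A β : Type*} [Field k] [IsAlgClosed k] [CommRing A] [Nontrivial A] [Algebra k A]
  (p : ℕ) [hp : Fact p.Prime] [CharP k p]
  {B : Base k A β} {S : Set (β × k)} {D : β → A}

/-- **The curve lemma, with weights**, and with the primitive `h` of the law. -/
theorem curve_hom (h : Ext B S D) {l : k → β} (hl : Line B D l) {Q : k[X]} {g : A}
    (hQa : Addv p Q) (hm : Q.Monic) (hd1 : 1 ≤ Q.natDegree)
    (hv : ∀ P : A[X], Van B S P ↔ (Q.map (algebraMap k A) - C g) ∣ P) :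
    ∃ R B' hh : k[X], FAdd R ∧ R ≠ 0 ∧ FAdd B' ∧ hh.eval 0 = 0 ∧
      (∀ s s', B.ev (l s) (D (l s')) = hh.eval (s + s') - hh.eval s - hh.eval s') ∧
      (∀ P : A[X], Van B S P → ∀ t, B.evE (l (R.eval t)) ((B' + hh.comp R).eval t) P = 0) ∧
      (∀ s e, (l s, e) ∈ S → ∀ t, R.eval t = s → Q.eval (e - (B' + hh.comp R).eval t) = 0) ∧
      ∀ (a b : k) (μ : β → β) (φ : A →ₐ[k] A), a ≠ 0 → b ≠ 0 → Wt B S b μ φ →
        (∀ s, μ (l s) = l (a * s)) → ∀ θ : k, θ ^ R.natDegree = a →
          R.comp (C θ * X) = C a * R ∧ B'.comp (C θ * X) = C b * B' ∧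
            hh.comp (C a * X) = C b * hh := by
  have hQ : FAdd Q := hQa.fadd p
  have hQ0 : Q ≠ 0 := hm.ne_zero
  obtain ⟨m, hd⟩ := hQa.natDegree p hQ0
  have hevE : ∀ b e, B.evE b e (Q.map (algebraMap k A) - C g) = Q.eval e - B.ev b g := by
    intro b e
    unfold Base.evE
    rw [Polynomial.map_sub, Polynomial.map_map, Polynomial.eval_sub, Polynomial.map_C, Polynomial.eval_C]
    congr 2
    have : (B.ev b).toRingHom.comp (algebraMap k A) = RingHom.id k := by
      ext r; simp
    rw [this, Polynomial.map_id]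
  have hS : ∀ z ∈ S, Q.eval z.2 = B.ev z.1 g := by
    intro z hz
    have := (hv _).2 (dvd_refl _) z hz
    rw [hevE] at this
    exact sub_eq_zero.1 this
  have haev : ∀ b (f : A), B.ev b (aeval f Q) = Q.eval (B.ev b f) := by
    intro b f
    rw [← Polynomial.aeval_algHom_apply, Polynomial.coe_aeval_eq_eval]
  -- identity in the first variable
  have I2 : ∀ y ∈ S, ∀ b, B.ev (B.mul b y.1) g = B.ev b g + B.ev y.1 g + Q.eval (B.ev b (D y.1)) := by
    intro y hy
    have hf := h.dense (B.tr y.1 g - g - algebraMap k A (B.ev y.1 g) - aeval (D y.1) Q) (by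
      intro x hx
      have h1 := hS _ (h.mul x hx y hy)
      have h2 := hS x hx
      have h3 := hS y hy
      simp only [map_sub, B.ev_tr, haev, AlgHom.commutes]
      have h4 := hQ (x.2 + y.2) (B.ev x.1 (D y.1))
      have h5 := hQ x.2 y.2
      simp only at h1
      rw [h4, h5, h2, h3] at h1
      simp only [Algebra.algebraMap_self_apply]
      linear_combination -h1)
    intro b
    have e := congrArg (B.ev b) hf
    simp only [map_sub, B.ev_tr, haev, AlgHom.commutes, map_zero, Algebra.algebraMap_self_apply] at e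
    linear_combination e
  have I3 : ∀ s b', B.ev (B.mul (l s) b') g = B.ev (l s) g + B.ev b' g + Q.eval (B.ev (l s) (D b')) := by
    intro s
    obtain ⟨g', hg'⟩ := hl.left s g
    obtain ⟨E, hE⟩ := hl.dr s
    have hf := h.dense (g' - algebraMap k A (B.ev (l s) g) - g - aeval E Q) (by
      intro y hy
      have h1 := I2 y hy (l s)
      simp only [map_sub, haev, AlgHom.commutes, Algebra.algebraMap_self_apply]
      rw [← hg', ← hE]
      linear_combination h1)
    intro b'
    have e := congrArg (B.ev b') hf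
    simp only [map_sub, haev, AlgHom.commutes, map_zero, Algebra.algebraMap_self_apply] at e
    rw [← hg', ← hE] at e
    linear_combination e
  obtain ⟨G, hG⟩ := hl.pol g
  have hGa : ∀ s s', G.eval (s + s') - G.eval s - G.eval s' = Q.eval (B.ev (l s) (D (l s'))) := by
    intro s s'
    have := I3 s (l s')
    rw [hl.add, hG, hG, hG] at this
    linear_combination this
  obtain ⟨A₀, h₀, hA₀, hh0, hGe, hde⟩ := red (k := k) p hQ hm hd (g := G)
    (δ := fun s s' => B.ev (l s) (D (l s'))) hl.dd hGa (by rw [hl.z]; exact h.d0 _)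
  -- normalised
  obtain ⟨B₁, A', hB₁, hA', hAe, hor⟩ := exists_div p hQ hQ0 A₀.natDegree A₀ hA₀ le_rfl
  obtain ⟨hh, hhe⟩ : ∃ hh, hh = h₀ + B₁ := ⟨_, rfl⟩
  have hhh0 : hh.eval 0 = 0 := by rw [hhe, eval_add, hh0, hB₁.eval_zero, add_zero]
  have hGe' : G = A' + Q.comp hh := by
    rw [hGe, hhe, hQ.comp_add, hAe]
    ring
  have hde' : ∀ s s', B.ev (l s) (D (l s')) = hh.eval (s + s') - hh.eval s - hh.eval s' := by
    intro s s'
    have h1 := hde s s'
    rw [h1, hhe]
    simp only [eval_add]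
    rw [hB₁ s s']
    ring
  obtain ⟨R, B', hR, hB', hR0, hRe, hhom⟩ := ore_hom p hA' hQ hQ0
  have hQc : ∀ t, Q.eval ((B' + hh.comp R).eval t) = B.ev (l (R.eval t)) g := by
    intro t
    rw [Polynomial.eval_add, hQ, ← Polynomial.eval_comp, ← hRe, hG, hGe']
    simp only [Polynomial.eval_comp, Polynomial.eval_add]
  refine ⟨R, B', hh, hR, hR0, hB', hhh0, hde', ?_, ?_, ?_⟩
  · intro P hP t
    obtain ⟨P', rfl⟩ := (hv P).1 hP
    have e1 := hevE (l (R.eval t)) ((B' + hh.comp R).eval t)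
    rw [hQc, sub_self] at e1
    unfold Base.evE at e1 ⊢
    rw [Polynomial.map_mul, Polynomial.eval_mul, e1, zero_mul]
  · intro s e he t ht
    have h1 := hS _ he
    have h2 := hQ (e - (B' + hh.comp R).eval t) ((B' + hh.comp R).eval t)
    rw [sub_add_cancel, hQc, ht] at h2
    simp only at h1
    rw [h1] at h2
    linear_combination -h2
  · intro a b μ φ ha hb hw hμ θ hθ
    obtain ⟨hQb, hgb⟩ := rel_hom hw hQa hp.out.pos hm hd1 hv
    have hGb : G.comp (C a * X) = C (b ^ Q.natDegree) * G := by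
      refine Polynomial.funext fun s => ?_
      rw [eval_CX, eval_mul, eval_C, ← hG, ← hG, ← hμ, ← hw.ev, hgb, map_mul, AlgHom.commutes]
      rfl
    rw [hGe'] at hGb
    obtain ⟨h1, h2⟩ := red_hom hQ hm hQb hor hhh0 hGb
    obtain ⟨h3, h4⟩ := hhom a b _ ha hb (pow_ne_zero _ hb) hQb h2 θ hθ
    exact ⟨h3, h4, h1⟩

end CURVE

section ONE

variable {k : Type*} [Field k] [IsAlgClosed k] (p : ℕ) [hp : Fact p.Prime] [CharP k p]

/-- scaling of the variable. -/
noncomputable def scal (a : k) : k[X] →ₐ[k] k[X] := Polynomial.aeval (C a * X)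

theorem ev_scal (a s : k) (f : k[X]) : (base1 k).ev s (scal a f) = (base1 k).ev (a * s) f := by
  change aeval s (aeval (C a * X) f) = aeval (a * s) f
  rw [← Polynomial.aeval_algHom_apply]
  congr 2
  rw [map_mul, Polynomial.aeval_C, Polynomial.aeval_X]
  rfl

include p in
/-- **Group step, one variable, with weights and with the primitive of the law.** -/
theorem G1.dich_hom {S : Set (k × k)} {δ : k → k → k} (h : G1 S δ) :
    (∀ P : k[X][X], (∀ x ∈ S, ev2 x.1 x.2 P = 0) → P = 0) ∨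
    ∃ R B h' : k[X], FAdd R ∧ R ≠ 0 ∧ FAdd B ∧ h'.eval 0 = 0 ∧
      (∀ s s', δ s s' = h'.eval (s + s') - h'.eval s - h'.eval s') ∧
      (∀ P : k[X][X], (∀ x ∈ S, ev2 x.1 x.2 P = 0) →
        ∀ t, ev2 (R.eval t) ((B + h'.comp R).eval t) P = 0) ∧
      {t | (R.eval t, (B + h'.comp R).eval t) ∈ S}.Infinite ∧
      (∀ t t', (R.eval t, (B + h'.comp R).eval t) ∈ S → (R.eval t', (B + h'.comp R).eval t') ∈ S →
        (R.eval (t + t'), (B + h'.comp R).eval (t + t')) ∈ S) ∧
      ∀ a b : k, a ≠ 0 → b ≠ 0 → (∀ x ∈ S, (a * x.1, b * x.2) ∈ S) →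
        ∀ θ : k, θ ^ R.natDegree = a → R.comp (C θ * X) = C a * R ∧
          B.comp (C θ * X) = C b * B ∧ h'.comp (C a * X) = C b * h' := by
  rcases rel h.ext p with h1 | ⟨Q, g, hQa, hm, hd1, hg0, hv⟩
  · exact Or.inl fun P hP => h1 P fun x hx => by rw [ev2_eq]; exact hP x hx
  right
  obtain ⟨R, B, h', hR, hR0, hB, h'0, hlaw, hP, hfin, hhom⟩ := curve_hom p h.ext h.line hQa hm hd1 hv
  obtain ⟨c, hc⟩ : ∃ c, c = B + h'.comp R := ⟨_, rfl⟩
  rw [← hc] at hP hfin
  have hc0 : c.eval 0 = 0 := by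
    rw [hc, eval_add, eval_comp, hB.eval_zero, hR.eval_zero, h'0, add_zero]
  have hδ : ∀ s s', δ s s' = h'.eval (s + s') - h'.eval s - h'.eval s' := by
    intro s s'
    have := hlaw s s'
    have e : (base1 k).ev (id s) (h.D (id s')) = δ s s' := by
      change aeval s (h.D s') = _
      rw [Polynomial.coe_aeval_eq_eval, h.D_eval]
    rw [e] at this
    exact this
  have hlaw' : ∀ t t', c.eval (t + t') = c.eval t + c.eval t' + δ (R.eval t) (R.eval t') := by
    intro t t'
    rw [hδ, hc]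
    simp only [eval_add, eval_comp]
    rw [hB t t', hR t t']
    ring
  have hcl : ∀ t t', (R.eval t, c.eval t) ∈ S → (R.eval t', c.eval t') ∈ S →
      (R.eval (t + t'), c.eval (t + t')) ∈ S := by
    intro t t' ht ht'
    have := h.mul _ ht _ ht'
    rw [hR, hlaw']
    exact this
  refine ⟨R, B, h', hR, hR0, hB, h'0, hδ, ?_, ?_, ?_, ?_⟩
  · rw [← hc]
    intro P hP' t
    have := hP P (fun x hx => by rw [ev2_eq]; exact hP' x hx) t
    rw [ev2_eq] at this
    exact this
  · -- pigeonhole over the roots of Q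
    rw [← hc]
    classical
    have hmulu : ∀ t u t' u', (R.eval t, c.eval t + u) ∈ S → (R.eval t', c.eval t' + u') ∈ S →
        (R.eval (t + t'), c.eval (t + t') + (u + u')) ∈ S := by
      intro t u t' u' ht ht'
      have := h.mul _ ht _ ht'
      rw [hR, hlaw']
      convert this using 2
      ring
    have hpow : ∀ t u, (R.eval t, c.eval t + u) ∈ S → ∀ n : ℕ,
        (R.eval ((n : k) * t), c.eval ((n : k) * t) + (n : k) * u) ∈ S := by
      intro t u ht n
      induction n with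
      | zero =>
        have := h.z
        simpa [hR.eval_zero, hc0] using this
      | succ n ih =>
        have := hmulu _ _ _ _ ih ht
        push_cast
        rw [add_mul, one_mul, add_mul, one_mul]
        exact this
    have hneg : ∀ t u, (R.eval t, c.eval t + u) ∈ S → (R.eval (-t), c.eval (-t) + -u) ∈ S := by
      intro t u ht
      have := hpow t u ht (p - 1)
      have e : ((p - 1 : ℕ) : k) = -1 := by
        rw [Nat.cast_sub hp.out.one_lt.le, CharP.cast_eq_zero]
        simp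
      rw [e] at this
      simpa using this
    have : Infinite (Prod.fst '' S) := h.inf.to_subtype
    have hch : ∀ s : (Prod.fst '' S), ∃ (t u : k), R.eval t = s.1 ∧ (R.eval t, c.eval t + u) ∈ S ∧
        Q.eval u = 0 := by
      rintro ⟨_, x, hx, rfl⟩
      obtain ⟨t, ht⟩ := hR.surj hR0 x.1
      refine ⟨t, x.2 - c.eval t, ht, ?_, ?_⟩
      · rw [add_sub_cancel, ht]; exact hx
      · exact hfin x.1 x.2 hx t ht
    choose tt uu h1 h2 h3 using hch
    have hQ0 : Q ≠ 0 := hm.ne_zero
    let F : (Prod.fst '' S) → (Q.roots.toFinset : Set k) := fun s => ⟨uu s, by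
      simpa [Polynomial.mem_roots hQ0] using h3 s⟩
    obtain ⟨u0, hu0⟩ := Finite.exists_infinite_fiber F
    obtain ⟨s0⟩ : Nonempty (F ⁻¹' {u0}) := inferInstance
    refine Set.infinite_of_injective_forall_mem (α := F ⁻¹' {u0})
      (f := fun s => tt s.1 + -(tt s0.1)) ?_ ?_
    · intro s s' hss
      have e : tt s.1 = tt s'.1 := add_right_cancel hss
      have e2 := congrArg (fun t => R.eval t) e
      simp only [h1] at e2
      exact Subtype.ext (Subtype.ext e2)
    · intro s
      have e1 : uu s.1 = u0.1 := congrArg Subtype.val s.2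
      have e2 : uu s0.1 = u0.1 := congrArg Subtype.val s0.2
      have := hmulu _ _ _ _ (h2 s.1) (hneg _ _ (h2 s0.1))
      rw [e1, e2, add_neg_cancel, add_zero] at this
      exact this
  · rw [← hc]
    exact hcl
  · intro a b ha hb hst θ hθ
    exact hhom a b (fun s => a * s) (scal a) ha hb ⟨fun x f => ev_scal a x f, hst⟩
      (fun s => rfl) θ hθ

end ONE

section TWO

variable {k : Type*} [Field k] [IsAlgClosed k] (p : ℕ) [hp : Fact p.Prime] [CharP k p]

/-- scaling one more variable. -/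
noncomputable def scalX {A : Type*} [CommRing A] [Algebra k A] (φ : A →ₐ[k] A) (b : k) :
    A[X] →ₐ[k] A[X] :=
  { toRingHom := (Polynomial.compRingHom (C (algebraMap k A b) * X)).comp
      (Polynomial.mapRingHom φ.toRingHom)
    commutes' := fun r => by
      rw [Polynomial.algebraMap_apply]
      simp }

theorem evE_scalX {A β : Type*} [CommRing A] [Algebra k A] (B : Base k A β) {φ : A →ₐ[k] A}
    {μ : β → β} (h : ∀ x f, B.ev x (φ f) = B.ev (μ x) f) (b e : k) (x : β) (P : A[X]) :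
    B.evE x e (scalX φ b P) = B.evE (μ x) (b * e) P := by
  change B.evE x e ((P.map φ.toRingHom).comp (C (algebraMap k A b) * X)) = _
  unfold Base.evE
  rw [Polynomial.map_comp, Polynomial.map_map, Polynomial.eval_comp]
  have h2 : ((B.ev x).toRingHom.comp φ.toRingHom) = (B.ev (μ x)).toRingHom := by
    ext f
    exact h _ _
  rw [h2]
  congr 1
  simp

variable {S : Set ((k × k) × k)} {δ : k → k → k} {δ3 : k × k → k × k → k}

include p in
/-- **Group step, two variables below, with weights and with the primitive of the law.** -/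
theorem G2.dich_hom (h : G2 S δ δ3) :
    (∀ P : k[X][X][X], (∀ x ∈ S, ev3 x.1.1 x.1.2 x.2 P = 0) → P = 0) ∨
    ∃ R B h' : k[X], FAdd R ∧ R ≠ 0 ∧ FAdd B ∧ h'.eval 0 = 0 ∧
      (∀ s s', δ3 (0, s) (0, s') = h'.eval (s + s') - h'.eval s - h'.eval s') ∧
      (∀ P : k[X][X][X], (∀ x ∈ S, ev3 x.1.1 x.1.2 x.2 P = 0) →
        ∀ t, ev3 0 (R.eval t) ((B + h'.comp R).eval t) P = 0) ∧
      ∀ a a' b : k, a' ≠ 0 → b ≠ 0 →
        (∀ x ∈ S, ((a * x.1.1, a' * x.1.2), b * x.2) ∈ S) →
        ∀ θ : k, θ ^ R.natDegree = a' → R.comp (C θ * X) = C a' * R ∧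
          B.comp (C θ * X) = C b * B ∧ h'.comp (C a' * X) = C b * h' := by
  rcases rel h.ext p with h1 | ⟨Q, g, hQa, hm, hd1, hg0, hv⟩
  · exact Or.inl fun P hP => h1 P fun x hx => by rw [h.B_evE]; exact hP x hx
  right
  obtain ⟨R, B, h', hR, hR0, hB, h'0, hlaw, hP, -, hhom⟩ := curve_hom p h.ext h.line hQa hm hd1 hv
  refine ⟨R, B, h', hR, hR0, hB, h'0, ?_, ?_, ?_⟩
  · intro s s'
    have := hlaw s s'
    rw [h.D3_eval] at this
    exact this
  · intro P hP' t
    have := hP P (fun x hx => by rw [h.B_evE]; exact hP' x hx) t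
    rw [h.B_evE] at this
    exact this
  · intro a a' b ha' hb hst θ hθ
    refine hhom a' b (fun x => (a * x.1, a' * x.2)) (scalX (scal a) a') ha' hb ⟨?_, hst⟩ ?_ θ hθ
    · intro x f
      change (base1 k).evE x.1 x.2 (scalX (scal a) a' f) = (base1 k).evE (a * x.1) (a' * x.2) f
      exact evE_scalX (base1 k) (fun x f => ev_scal a x f) a' x.2 x.1 f
    · intro s
      simp

end TWO

end TWRL
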