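import Mathlib

/-! Subgroups of a triangular polynomial group over an algebraically closed field of characteristic p,
elementary form. `Add p f`: the polynomial f is additive. -/

open Polynomial

namespace TWRL

/-- p-power exponents only. -/
def Addv {A : Type*} [Semiring A] (p : ℕ) (f : A[X]) : Prop := ∀ n, f.coeff n ≠ 0 → ∃ j, n = p ^ j

theorem choose_ppow (p : ℕ) [hp : Fact p.Prime] (j m : ℕ) :
    ((p ^ j * m).choose (p ^ j) : ℕ) ≡ m [MOD p] := by
  induction j with
  | zero => simpa using Nat.ModEq.refl m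
  | succ j ih =>
    have h := Choose.choose_modEq_choose_mod_mul_choose_div_nat (p := p) (n := p ^ (j + 1) * m)
      (k := p ^ (j + 1))
    have e1 : p ^ (j + 1) * m % p = 0 := by
      rw [pow_succ, mul_assoc, mul_comm (p ^ j), mul_assoc]; exact Nat.mul_mod_right _ _
    have e2 : p ^ (j + 1) % p = 0 := by
      rw [pow_succ, mul_comm]; exact Nat.mul_mod_right _ _
    have e3 : p ^ (j + 1) * m / p = p ^ j * m := by
      rw [pow_succ, mul_right_comm]; exact Nat.mul_div_left _ hp.out.pos
    have e4 : p ^ (j + 1) / p = p ^ j := by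
      rw [pow_succ]; exact Nat.mul_div_left _ hp.out.pos
    rw [e1, e2, e3, e4] at h
    simpa using h.trans (by simpa using ih)

/-- l is a p-power as soon as all the inner binomials vanish. -/
theorem ppow_of_choose {A : Type*} [CommRing A] [Nontrivial A] (p : ℕ) [hp : Fact p.Prime] [CharP A p] {l : ℕ}
    (hl : 1 ≤ l) (h : ∀ i, 1 ≤ i → i < l → ((l.choose i : ℕ) : A) = 0) : ∃ j, l = p ^ j := by
  obtain ⟨j, m, hm, e⟩ := Nat.exists_eq_pow_mul_and_not_dvd (n := l) (by omega) p hp.out.ne_one
  refine ⟨j, ?_⟩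
  by_contra hne
  have hm1 : m ≠ 1 := fun h1 => hne (by rw [e, h1, mul_one])
  have hm0 : m ≠ 0 := fun h0 => by rw [h0, mul_zero] at e; omega
  have hpj : 1 ≤ p ^ j := Nat.one_le_pow _ _ hp.out.pos
  have hlt : p ^ j < l := by
    rw [e]
    calc p ^ j = p ^ j * 1 := (mul_one _).symm
      _ < p ^ j * m := Nat.mul_lt_mul_of_pos_left (by omega) (by omega)
  have h1 := h (p ^ j) hpj hlt
  rw [CharP.cast_eq_zero_iff A p] at h1
  have h2 := choose_ppow p j m
  rw [← e] at h2
  exact hm ((h2.symm.dvd_iff (dvd_refl p)).2 h1)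

section REL

variable {k A β : Type*} [Field k] [CommRing A] [Nontrivial A] [Algebra k A]

set_option linter.unusedSectionVars false

/-- Functions on a base with a triangular polynomial law. -/
structure Base (k A β : Type*) [Field k] [CommRing A] [Algebra k A] where
  ev : β → A →ₐ[k] k
  o : β
  mul : β → β → β
  tr : β → A →ₐ[k] A
  ev_tr : ∀ b b' f, ev b (tr b' f) = ev (mul b b') f
  mul_o : ∀ b, mul o b = b
  W : Type
  rk : A → W
  lt : W → W → Prop
  wf : WellFounded lt
  rk_lt : ∀ b f, tr b f ≠ f → lt (rk (tr b f - f)) (rk f)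

/-- evaluation of a polynomial over A at (b, e). -/
noncomputable def Base.evE (B : Base k A β) (b : β) (e : k) (P : A[X]) : k :=
  (P.map (B.ev b).toRingHom).eval e

/-- A subset of the extension, closed under the law. -/
structure Ext (B : Base k A β) (S : Set (β × k)) (D : β → A) : Prop where
  z : (B.o, (0 : k)) ∈ S
  d0 : ∀ b, B.ev B.o (D b) = 0
  mul : ∀ x ∈ S, ∀ y ∈ S, (B.mul x.1 y.1, x.2 + y.2 + B.ev x.1 (D y.1)) ∈ S
  dense : ∀ f : A, (∀ x ∈ S, B.ev x.1 f = 0) → f = 0

variable {B : Base k A β} {S : Set (β × k)} {D : β → A}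

/-- the translate of P. -/
noncomputable def trn (B : Base k A β) (D : β → A) (y : β × k) (P : A[X]) : A[X] :=
  (P.map (B.tr y.1).toRingHom).comp (X + C (algebraMap k A y.2 + D y.1))

theorem evE_trn (B : Base k A β) (D : β → A) (x y : β × k) (P : A[X]) :
    B.evE x.1 x.2 (trn B D y P) = B.evE (B.mul x.1 y.1) (x.2 + y.2 + B.ev x.1 (D y.1)) P := by
  unfold Base.evE trn
  rw [Polynomial.map_comp, Polynomial.map_map, Polynomial.eval_comp]
  have h1 : ((B.ev x.1).toRingHom.comp (B.tr y.1).toRingHom) = (B.ev (B.mul x.1 y.1)).toRingHom := by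
    ext f; exact B.ev_tr _ _ _
  rw [h1]
  congr 1
  simp [add_assoc]

/-- P vanishes on S. -/
def Van (B : Base k A β) (S : Set (β × k)) (P : A[X]) : Prop := ∀ x ∈ S, B.evE x.1 x.2 P = 0

theorem Ext.van_trn (h : Ext B S D) {P : A[X]} (hP : Van B S P) {y : β × k} (hy : y ∈ S) :
    Van B S (trn B D y P) := fun x hx => by
  rw [evE_trn]; exact hP _ (h.mul x hx y hy)

/-- coefficients of the translate: top one. -/
theorem coeff_comp_top {R : Type*} [CommRing R] (f : R[X]) (c : R) (n : ℕ) (hn : f.natDegree ≤ n) :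
    (f.comp (X + C c)).coeff n = f.coeff n := by
  have h := Polynomial.taylor_coeff c f n
  rw [Polynomial.taylor_apply] at h
  rw [h]
  rw [Polynomial.hasseDeriv_apply, Polynomial.sum_def]
  rw [Polynomial.eval_finsetSum]
  have : ∀ i ∈ f.support, i ≠ n → eval c ((monomial (i - n)) (((i.choose n : ℕ) : R) * f.coeff i)) = 0 := by
    intro i hi hin
    have hle : i ≤ n := (Polynomial.le_natDegree_of_mem_supp i hi).trans hn
    have : i.choose n = 0 := Nat.choose_eq_zero_of_lt (lt_of_le_of_ne hle hin)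
    rw [this]; simp
  by_cases hs : n ∈ f.support
  · rw [Finset.sum_eq_single_of_mem n hs this]
    simp
  · rw [Finset.sum_eq_zero (fun i hi => this i hi (fun e => hs (e ▸ hi)))]
    exact (Polynomial.notMem_support_iff.1 hs).symm

theorem natDegree_trn_le (y : β × k) (P : A[X]) : (trn B D y P).natDegree ≤ P.natDegree := by
  unfold trn
  have h := Polynomial.natDegree_taylor ((P.map (B.tr y.1).toRingHom)) (algebraMap k A y.2 + D y.1)
  rw [Polynomial.taylor_apply] at h
  rw [h]
  exact Polynomial.natDegree_map_le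

theorem coeff_trn_top (y : β × k) (P : A[X]) (n : ℕ) (hn : P.natDegree ≤ n) :
    (trn B D y P).coeff n = B.tr y.1 (P.coeff n) := by
  unfold trn
  rw [coeff_comp_top _ _ _ (Polynomial.natDegree_map_le.trans hn), Polynomial.coeff_map]
  rfl

/-- **The relation lemma.** Either nothing vanishes on S, or the polynomials which vanish on S are the multiples of
Q(e) - g(b) with Q monic and additive over k. -/
theorem rel (h : Ext B S D) (p : ℕ) [hp : Fact p.Prime] [CharP k p] :
    (∀ P : A[X], Van B S P → P = 0) ∨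
    ∃ (Q : k[X]) (g : A), Addv p Q ∧ Q.Monic ∧ 1 ≤ Q.natDegree ∧ B.ev B.o g = 0 ∧
      (∀ P : A[X], Van B S P ↔ (Q.map (algebraMap k A) - C g) ∣ P) := by
  classical
  by_cases hall : ∀ P : A[X], Van B S P → P = 0
  · exact Or.inl hall
  right
  have hall' : ∃ P : A[X], Van B S P ∧ P ≠ 0 := by
    by_contra hc
    exact hall fun P hP => by
      by_contra h0
      exact hc ⟨P, hP, h0⟩
  obtain ⟨P0, hP0v, hP00⟩ := hall'
  have hex : ∃ d, ∃ P : A[X], Van B S P ∧ P ≠ 0 ∧ P.natDegree = d := ⟨_, P0, hP0v, hP00, rfl⟩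
  obtain ⟨d, hdex, hdmin⟩ : ∃ d, (∃ P : A[X], Van B S P ∧ P ≠ 0 ∧ P.natDegree = d) ∧
      ∀ P : A[X], Van B S P → P.natDegree < d → P = 0 := by
    refine ⟨Nat.find hex, Nat.find_spec hex, ?_⟩
    intro P hP hlt
    by_contra h0
    exact Nat.find_min hex hlt ⟨P, hP, h0, rfl⟩
  let T : Set A[X] := {P | Van B S P ∧ P ≠ 0 ∧ P.natDegree = d}
  have hT : T.Nonempty := hdex
  let r2 : A[X] → A[X] → Prop := InvImage B.lt (fun P => B.rk (P.coeff d))
  have wf2 : WellFounded r2 := InvImage.wf _ B.wf
  obtain ⟨P, ⟨hPv, hP0, hPd⟩, hPmin⟩ := wf2.has_min T hT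
  have hsub : ∀ P1 P2 : A[X], Van B S P1 → Van B S P2 → Van B S (P1 - P2) := fun P1 P2 h1 h2 x hx => by
    have a := h1 x hx
    have b := h2 x hx
    unfold Base.evE at a b ⊢
    rw [Polynomial.map_sub, Polynomial.eval_sub, a, b, sub_zero]
  have hmulr : ∀ P1 P2 : A[X], Van B S P1 → Van B S (P2 * P1) := fun P1 P2 h1 x hx => by
    have a := h1 x hx
    unfold Base.evE at a ⊢
    rw [Polynomial.map_mul, Polynomial.eval_mul, a, mul_zero]
  have small : ∀ P1 : A[X], Van B S P1 → P1.natDegree ≤ d → P1.coeff d = 0 → P1 = 0 := by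
    intro P1 h1 h2 h3
    by_cases h0 : P1 = 0
    · exact h0
    refine hdmin P1 h1 (lt_of_le_of_ne h2 fun e => h0 ?_)
    rw [← e] at h3
    exact Polynomial.leadingCoeff_eq_zero.1 h3
  have hinv : ∀ y ∈ S, B.tr y.1 (P.coeff d) = P.coeff d := by
    intro y hy
    by_contra hne
    have hcd : (trn B D y P - P).coeff d = B.tr y.1 (P.coeff d) - P.coeff d := by
      rw [Polynomial.coeff_sub, coeff_trn_top _ _ _ hPd.le]
    have hmem : trn B D y P - P ∈ T := by
      have hc0 : (trn B D y P - P).coeff d ≠ 0 := by rw [hcd]; exact sub_ne_zero.2 hne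
      refine ⟨hsub _ _ (h.van_trn hPv hy) hPv, fun e => hc0 (by rw [e]; simp), ?_⟩
      refine le_antisymm ?_ (Polynomial.le_natDegree_of_ne_zero hc0)
      exact (Polynomial.natDegree_sub_le _ _).trans
        (max_le ((natDegree_trn_le y P).trans hPd.le) hPd.le)
    refine hPmin _ hmem ?_
    change B.lt (B.rk ((trn B D y P - P).coeff d)) (B.rk (P.coeff d))
    rw [hcd]
    exact B.rk_lt _ _ hne
  have hconst : P.coeff d = algebraMap k A (B.ev B.o (P.coeff d)) := by
    have := h.dense (P.coeff d - algebraMap k A (B.ev B.o (P.coeff d))) (by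
      intro x hx
      have e1 := B.ev_tr B.o x.1 (P.coeff d)
      rw [hinv x hx, B.mul_o] at e1
      rw [map_sub, AlgHom.commutes, ← e1]
      simp)
    exact sub_eq_zero.1 this
  have hlead : P.coeff d ≠ 0 := by
    rw [← hPd]; exact fun e => hP0 (Polynomial.leadingCoeff_eq_zero.1 e)
  obtain ⟨a, ha⟩ : ∃ a, a = B.ev B.o (P.coeff d) := ⟨_, rfl⟩
  rw [← ha] at hconst
  have ha0 : a ≠ 0 := fun e => hlead (by rw [hconst, e, map_zero])
  obtain ⟨P1, hP1⟩ : ∃ P1, P1 = C (algebraMap k A a⁻¹) * P := ⟨_, rfl⟩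
  have hP1v : Van B S P1 := by rw [hP1]; exact hmulr _ _ hPv
  have hP1c : P1.coeff d = 1 := by
    rw [hP1, Polynomial.coeff_C_mul, hconst, ← map_mul, inv_mul_cancel₀ ha0, map_one]
  have hP1d : P1.natDegree ≤ d := by
    rw [hP1]; exact (Polynomial.natDegree_C_mul_le _ _).trans hPd.le
  have hP1m : P1.Monic := Polynomial.monic_of_natDegree_le_of_coeff_eq_one d hP1d hP1c
  have hP1d' : P1.natDegree = d :=
    le_antisymm hP1d (Polynomial.le_natDegree_of_ne_zero (by rw [hP1c]; exact one_ne_zero))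
  have hd1 : 1 ≤ d := by
    by_contra hd0
    have hd0 : d = 0 := by omega
    have e : P1 = 1 := by
      rw [hd0] at hP1d'
      exact (Polynomial.Monic.natDegree_eq_zero hP1m).1 hP1d'
    have := hP1v _ h.z
    rw [e] at this
    unfold Base.evE at this
    simp at this
  have hinv1 : ∀ y ∈ S, trn B D y P1 = P1 := by
    intro y hy
    refine sub_eq_zero.1 (small _ (hsub _ _ (h.van_trn hP1v hy) hP1v) ?_ ?_)
    · exact (Polynomial.natDegree_sub_le _ _).trans (max_le ((natDegree_trn_le y P1).trans hP1d) hP1d)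
    · rw [Polynomial.coeff_sub, coeff_trn_top _ _ _ hP1d, hP1c, map_one, sub_self]
  have htay : ∀ y ∈ S, taylor y.2 (P1.map (B.ev y.1).toRingHom) = P1.map (B.ev B.o).toRingHom := by
    intro y hy
    have e := congrArg (fun f => f.map (B.ev B.o).toRingHom) (hinv1 y hy)
    simp only [trn] at e
    rw [Polynomial.map_comp, Polynomial.map_map] at e
    have h1 : ((B.ev B.o).toRingHom.comp (B.tr y.1).toRingHom) = (B.ev y.1).toRingHom := by
      ext f
      have := B.ev_tr B.o y.1 f
      rw [B.mul_o] at this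
      exact this
    rw [h1] at e
    rw [← e, Polynomial.taylor_apply]
    congr 1
    have := h.d0 y.1
    simp [this]
  have hhm : ∀ (i : ℕ) (b : β), (hasseDeriv i P1).map (B.ev b).toRingHom =
      hasseDeriv i (P1.map (B.ev b).toRingHom) := by
    intro i b
    ext n
    simp [Polynomial.hasseDeriv_coeff]
  have hN : ∀ i, 1 ≤ i → hasseDeriv i P1 = C (algebraMap k A (B.ev B.o (P1.coeff i))) := by
    intro i hi
    refine sub_eq_zero.1 (hdmin _ ?_ ?_)
    · intro y hy
      have e := congrArg (fun f => f.coeff i) (htay y hy)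
      simp only [Polynomial.taylor_coeff, Polynomial.coeff_map] at e
      unfold Base.evE
      rw [Polynomial.map_sub, Polynomial.eval_sub, hhm, e]
      simp
    · refine lt_of_le_of_lt (Polynomial.natDegree_sub_le _ _) ?_
      rw [Polynomial.natDegree_C]
      have := Polynomial.natDegree_hasseDeriv_le P1 i
      have : max (hasseDeriv i P1).natDegree 0 ≤ d - 1 := by
        refine max_le (this.trans ?_) (Nat.zero_le _)
        omega
      omega
  have hcst : ∀ i, 1 ≤ i → P1.coeff i = algebraMap k A (B.ev B.o (P1.coeff i)) := by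
    intro i hi
    have e := congrArg (fun f => f.coeff 0) (hN i hi)
    simpa [Polynomial.hasseDeriv_coeff] using e
  have hch : ∀ i l, 1 ≤ i → i < l → ((l.choose i : ℕ) : k) * B.ev B.o (P1.coeff l) = 0 := by
    intro i l hi hl
    have e := congrArg (fun f => B.ev B.o (f.coeff (l - i))) (hN i hi)
    have hli : l - i + i = l := by omega
    have hli0 : l - i ≠ 0 := by omega
    simp only [Polynomial.hasseDeriv_coeff, Polynomial.coeff_C, if_neg hli0, map_zero, map_mul, map_natCast,
      hli] at e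
    exact e
  have hzero : B.ev B.o (P1.coeff 0) = 0 := by
    have := hP1v _ h.z
    unfold Base.evE at this
    rw [← Polynomial.coeff_zero_eq_eval_zero, Polynomial.coeff_map] at this
    exact this
  have hfac : (P1.map (B.ev B.o).toRingHom).map (algebraMap k A) - C (-(P1.coeff 0)) = P1 := by
    ext n
    rcases Nat.eq_zero_or_pos n with rfl | hn
    · simp [hzero]
    · rw [Polynomial.coeff_sub, Polynomial.coeff_map, Polynomial.coeff_map, Polynomial.coeff_C,
        if_neg (by omega), sub_zero]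
      exact (hcst n hn).symm
  refine ⟨P1.map (B.ev B.o).toRingHom, -(P1.coeff 0), ?_, ?_, ?_, ?_, ?_⟩
  · intro n hn
    rw [Polynomial.coeff_map] at hn
    have hn1 : 1 ≤ n := by
      rcases Nat.eq_zero_or_pos n with rfl | hn0
      · exact absurd hzero hn
      · exact hn0
    refine ppow_of_choose (A := k) p hn1 fun i h1 h2 => ?_
    exact (mul_eq_zero.1 (hch i n h1 h2)).resolve_right hn
  · exact hP1m.map _
  · rw [hP1m.natDegree_map, hP1d']; exact hd1
  · rw [map_neg, hzero, neg_zero]
  · intro P'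
    rw [hfac]
    constructor
    · intro hv
      have hv2 : Van B S (P' %ₘ P1) := by
        have := Polynomial.modByMonic_add_div P' P1
        have e : P' %ₘ P1 = P' - (P' /ₘ P1) * P1 := by rw [eq_sub_iff_add_eq, mul_comm]; exact this
        rw [e]
        exact hsub _ _ hv (hmulr _ _ hP1v)
      rw [← Polynomial.modByMonic_eq_zero_iff_dvd hP1m]
      by_cases h0 : P' %ₘ P1 = 0
      · exact h0
      refine hdmin _ hv2 ?_
      rw [← hP1d']
      exact Polynomial.natDegree_modByMonic_lt _ hP1m (fun e => by rw [e] at hP1d'; simp at hP1d'; omega)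
    · rintro ⟨R, rfl⟩
      rw [mul_comm]
      exact hmulr _ _ hP1v

end REL

end TWRL
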